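import Mathlib

set_option autoImplicit false

namespace Pool.Agent.Lib.MP_2bc700_co

open Finset

/-- Winding number argument: a circular colouring with adjacent vertices at circular distance more
than a quarter of the circle yields a linear one. -/
lemma core {p : ℕ} [Fact p.Prime] (S : Set (ZMod p)) (q : ℝ) (hq : 1/4 < q) (g : ZMod p → ℝ)
    (hg : ∀ x, ∀ s ∈ S, ∀ k : ℤ, q ≤ |g (x + s) - g x - k|) :
    ∃ b : ZMod p, ∀ s ∈ S, ∀ k : ℤ, q ≤ |((b * s).val : ℝ) / p - k| := by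
  classical
  have hp : (0 : ℝ) < p := by exact_mod_cast (Fact.out : p.Prime).pos
  rcases S.eq_empty_or_nonempty with hS | ⟨s0, hs0⟩
  · exact ⟨0, by rw [hS]; simp⟩
  have hs00 : s0 ≠ 0 := by
    rintro rfl
    have := hg 0 0 hs0 0
    simp at this
    linarith
  obtain ⟨e, he⟩ : ∃ e : ZMod p → ZMod p → ℝ, ∀ x s, e x s = Int.fract (g (x + s) - g x) - 1/2 :=
    ⟨fun x s => Int.fract (g (x + s) - g x) - 1/2, fun _ _ => rfl⟩
  have hint : ∀ x s, ∃ k : ℤ, g (x + s) - g x = e x s + 1/2 + k := by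
    intro x s
    refine ⟨⌊g (x + s) - g x⌋, ?_⟩
    rw [he]
    have := Int.fract_add_floor (g (x + s) - g x)
    linarith
  have hbd : ∀ x, ∀ s ∈ S, |e x s| ≤ 1/2 - q := by
    intro x s hs
    have h1 := hg x s hs ⌊g (x + s) - g x⌋
    have h2 := hg x s hs (⌊g (x + s) - g x⌋ + 1)
    have h3 := Int.fract_add_floor (g (x + s) - g x)
    have h4 := Int.fract_nonneg (g (x + s) - g x)
    have h5 := Int.fract_lt_one (g (x + s) - g x)
    have e1 : g (x + s) - g x - (⌊g (x + s) - g x⌋ : ℝ) = Int.fract (g (x + s) - g x) := by linarith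
    have e2 : g (x + s) - g x - ((⌊g (x + s) - g x⌋ + 1 : ℤ) : ℝ) = Int.fract (g (x + s) - g x) - 1 := by
      push_cast; linarith
    rw [e1, abs_of_nonneg h4] at h1
    rw [e2, abs_of_neg (by linarith)] at h2
    rw [he, abs_le]
    constructor <;> linarith
  have hfour : ∀ x, ∀ s ∈ S, ∀ t ∈ S, e x s + e (x + s) t = e x t + e (x + t) s := by
    intro x s hs t ht
    obtain ⟨k1, h1⟩ := hint x s
    obtain ⟨k2, h2⟩ := hint (x + s) t
    obtain ⟨k3, h3⟩ := hint x t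
    obtain ⟨k4, h4⟩ := hint (x + t) s
    have hcomm : x + t + s = x + s + t := by ring
    rw [hcomm] at h4
    have hz : e x s + e (x + s) t - (e x t + e (x + t) s) = ((k3 + k4 - k1 - k2 : ℤ) : ℝ) := by
      push_cast; linarith
    have b1 := abs_le.mp (hbd x s hs)
    have b2 := abs_le.mp (hbd (x + s) t ht)
    have b3 := abs_le.mp (hbd x t ht)
    have b4 := abs_le.mp (hbd (x + t) s hs)
    have hlt : |((k3 + k4 - k1 - k2 : ℤ) : ℝ)| < 1 := by
      rw [← hz, abs_lt]; constructor <;> linarith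
    have hz0 : (k3 + k4 - k1 - k2 : ℤ) = 0 := by
      rw [← Int.abs_lt_one_iff]
      exact_mod_cast hlt
    rw [hz0] at hz
    push_cast at hz
    linarith
  -- partial sums
  obtain ⟨D, hD⟩ : ∃ D : ℕ → ZMod p → ℝ, ∀ m x, D m x = ∑ j ∈ range m, e (x + j * s0) s0 :=
    ⟨fun m x => ∑ j ∈ range m, e (x + j * s0) s0, fun _ _ => rfl⟩
  have hDint : ∀ (m : ℕ) (x : ZMod p), ∃ k : ℤ, g (x + m * s0) - g x = D m x + m / 2 + k := by
    intro m
    induction m with
    | zero => intro x; exact ⟨0, by rw [hD]; simp⟩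
    | succ m ih =>
      intro x
      obtain ⟨k, hk⟩ := ih x
      obtain ⟨k', hk'⟩ := hint (x + m * s0) s0
      refine ⟨k + k', ?_⟩
      have h1 : x + ((m + 1 : ℕ) : ZMod p) * s0 = x + m * s0 + s0 := by push_cast; ring
      rw [h1, hD, sum_range_succ, ← hD]
      push_cast
      linarith
  have hDstep : ∀ (m : ℕ) (x : ZMod p), D m (x + s0) - D m x = e (x + m * s0) s0 - e x s0 := by
    intro m x
    rw [hD, hD, ← sum_sub_distrib]
    have h1 : ∀ j : ℕ, e (x + s0 + j * s0) s0 - e (x + j * s0) s0 =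
        (fun j : ℕ => e (x + j * s0) s0) (j + 1) - (fun j : ℕ => e (x + j * s0) s0) j := by
      intro j
      have h2 : x + s0 + j * s0 = x + ((j + 1 : ℕ) : ZMod p) * s0 := by push_cast; ring
      show _ = e (x + ((j + 1 : ℕ) : ZMod p) * s0) s0 - e (x + j * s0) s0
      rw [h2]
    refine (sum_congr rfl (fun j _ => h1 j)).trans
      ((sum_range_sub (fun j : ℕ => e (x + (j : ZMod p) * s0) s0) m).trans ?_)
    simp
  -- averages
  have hDsum : ∀ m : ℕ, ∑ x, D m x = m * ∑ x, e x s0 := by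
    intro m
    simp_rw [hD]
    rw [sum_comm]
    have h1 : ∀ j : ℕ, ∑ x : ZMod p, e (x + j * s0) s0 = ∑ x, e x s0 := by
      intro j
      exact Fintype.sum_equiv (Equiv.addRight ((j : ZMod p) * s0)) _ _ (fun x => rfl)
    rw [sum_congr rfl (fun j _ => h1 j), sum_const, card_range, nsmul_eq_mul]
  have hmul : ∀ x : ZMod p, ((x * s0⁻¹).val : ZMod p) * s0 = x := by
    intro x
    rw [ZMod.natCast_zmod_val, mul_assoc, inv_mul_cancel₀ hs00, mul_one]
  -- the constant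
  have hconst : ∀ s ∈ S, ∃ κ : ℤ, ∀ x, e x s - D (s * s0⁻¹).val x - ((s * s0⁻¹).val - 1) / 2 = κ := by
    intro s hs
    obtain ⟨m, hm⟩ : ∃ m, m = (s * s0⁻¹).val := ⟨_, rfl⟩
    rw [← hm]
    have hms : (m : ZMod p) * s0 = s := by rw [hm]; exact hmul s
    have hex : ∀ x, ∃ κ : ℤ, e x s - D m x - ((m : ℝ) - 1) / 2 = κ := by
      intro x
      obtain ⟨k, hk⟩ := hint x s
      obtain ⟨k', hk'⟩ := hDint m x
      rw [hms] at hk'
      refine ⟨k' - k, ?_⟩
      push_cast; linarith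
    have hinv : ∀ x, e (x + s0) s - D m (x + s0) = e x s - D m x := by
      intro x
      have h1 := hfour x s hs s0 hs0
      have h2 := hDstep m x
      rw [hms] at h2
      linarith
    have hall : ∀ j : ℕ, e ((j : ZMod p) * s0) s - D m ((j : ZMod p) * s0) = e 0 s - D m 0 := by
      intro j
      induction j with
      | zero => simp
      | succ j ih =>
        have h1 : ((j + 1 : ℕ) : ZMod p) * s0 = (j : ZMod p) * s0 + s0 := by push_cast; ring
        rw [h1, hinv, ih]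
    obtain ⟨κ, hκ⟩ := hex 0
    refine ⟨κ, fun x => ?_⟩
    have h1 := hall (x * s0⁻¹).val
    rw [hmul] at h1
    rw [h1]; exact hκ
  obtain ⟨Θ, hΘ⟩ : ∃ Θ : ZMod p → ℝ, ∀ s, Θ s = (∑ x, e x s) / p := ⟨fun s => (∑ x, e x s) / p, fun _ => rfl⟩
  have hcard : ((univ : Finset (ZMod p)).card : ℝ) = p := by
    rw [card_univ, ZMod.card]
  have hΘbd : ∀ s ∈ S, |Θ s| ≤ 1/2 - q := by
    intro s hs
    rw [hΘ, abs_div, abs_of_pos hp, div_le_iff₀ hp]
    calc |∑ x, e x s| ≤ ∑ x, |e x s| := abs_sum_le_sum_abs _ _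
      _ ≤ ∑ x : ZMod p, (1/2 - q) := sum_le_sum (fun x _ => hbd x s hs)
      _ = (1/2 - q) * p := by rw [sum_const, nsmul_eq_mul, hcard]; ring
  have hΘrel : ∀ s ∈ S, ∃ κ : ℤ, Θ s = (s * s0⁻¹).val * (Θ s0 + 1/2) - 1/2 + κ := by
    intro s hs
    obtain ⟨κ, hκ⟩ := hconst s hs
    refine ⟨κ, ?_⟩
    have h1 : ∑ x : ZMod p, (e x s - D (s * s0⁻¹).val x - ((s * s0⁻¹).val - 1) / 2) = ∑ x : ZMod p, (κ : ℝ) :=
      sum_congr rfl (fun x _ => hκ x)
    rw [sum_sub_distrib, sum_sub_distrib, hDsum, sum_const, sum_const, nsmul_eq_mul, nsmul_eq_mul,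
      hcard] at h1
    rw [hΘ, hΘ]
    generalize (s * s0⁻¹).val = m at h1 ⊢
    generalize ∑ x, e x s = X at h1 ⊢
    generalize ∑ x, e x s0 = Y at h1 ⊢
    have h2 : X = m * Y + p * (((m : ℝ) - 1) / 2) + p * κ := by linarith
    rw [h2]
    field_simp
    ring
  -- integrality
  obtain ⟨B, hB⟩ : ∃ B : ℤ, p * (Θ s0 + 1/2) = B := by
    obtain ⟨k, hk⟩ := hDint p 0
    have h1 : D p 0 = ∑ x, e x s0 := by
      rw [hD]
      have hbij : ∑ j ∈ range p, e (0 + (j : ZMod p) * s0) s0 = ∑ x : ZMod p, e x s0 := by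
        apply sum_bij (fun (j : ℕ) _ => (j : ZMod p) * s0)
        · intro a _; exact mem_univ _
        · intro a ha b hb hab
          have h2 := mul_right_cancel₀ hs00 hab
          rw [mem_range] at ha hb
          have h3 := congrArg ZMod.val h2
          rwa [ZMod.val_natCast, ZMod.val_natCast, Nat.mod_eq_of_lt ha, Nat.mod_eq_of_lt hb] at h3
        · intro b _
          exact ⟨(b * s0⁻¹).val, mem_range.mpr (ZMod.val_lt _), hmul b⟩
        · intro a _; simp
      exact hbij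
    have h2 : (0 : ZMod p) + (p : ZMod p) * s0 = 0 := by simp
    rw [h2, sub_self, h1] at hk
    refine ⟨-k, ?_⟩
    rw [hΘ]
    push_cast
    field_simp
    linarith
  refine ⟨(B : ZMod p) * s0⁻¹, ?_⟩
  intro s hs k
  obtain ⟨κ, hκ⟩ := hΘrel s hs
  obtain ⟨m, hm⟩ : ∃ m, m = (s * s0⁻¹).val := ⟨_, rfl⟩
  rw [← hm] at hκ
  have h1 : (B : ZMod p) * s0⁻¹ * s = ((B * m : ℤ) : ZMod p) := by
    push_cast
    rw [hm, ZMod.natCast_zmod_val]; ring
  obtain ⟨l, hl⟩ : ∃ l : ℤ, (((B : ZMod p) * s0⁻¹ * s).val : ℤ) = B * m + l * p := by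
    rw [h1]
    have h2 : ((((B * m : ℤ) : ZMod p).val : ℤ) : ZMod p) = ((B * m : ℤ) : ZMod p) := by
      rw [Int.cast_natCast, ZMod.natCast_zmod_val]
    rw [ZMod.intCast_eq_intCast_iff_dvd_sub] at h2
    obtain ⟨l, hl⟩ := h2
    exact ⟨-l, by linarith⟩
  have h3 : (((B : ZMod p) * s0⁻¹ * s).val : ℝ) / p = Θ s + 1/2 - κ + l := by
    have h4 : ((((B : ZMod p) * s0⁻¹ * s).val : ℤ) : ℝ) = ((B * m + l * p : ℤ) : ℝ) := by rw [hl]
    push_cast at h4
    rw [h4, ← hB, hκ]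
    field_simp
    ring
  rw [h3]
  have hb := abs_le.mp (hΘbd s hs)
  obtain ⟨z, hz⟩ : ∃ z : ℤ, z = l - κ - k := ⟨_, rfl⟩
  have h5 : Θ s + 1/2 - κ + l - k = Θ s + 1/2 + z := by rw [hz]; push_cast; ring
  rw [h5]
  rcases le_or_gt 0 z with h | h
  · have : (0 : ℝ) ≤ z := by exact_mod_cast h
    rw [abs_of_nonneg (by linarith)]
    linarith
  · have : (z : ℝ) ≤ -1 := by exact_mod_cast (by omega : z ≤ -1)
    rw [abs_of_nonpos (by linarith)]
    linarith

end Pool.Agent.Lib.MP_2bc700_co
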