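import Mathlib

/-!
# Invariant means on abelian groups

Every abelian group has an invariant mean on its bounded real functions (Hahn-Banach).
-/

set_option autoImplicit false

namespace Pool.Agent.Lib.MP_2bc700_co

open Finset

variable {H : Type*} [AddCommGroup H]

/-- the average of the translates by `0, a, ..., n a` -/
noncomputable def av (n : ℕ) (a : H) : Module.End ℝ (H → ℝ) where
  toFun f x := (∑ j ∈ range (n + 1), f (x + j • a)) / ((n : ℝ) + 1)
  map_add' f g := by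
    funext x
    simp only [Pi.add_apply, sum_add_distrib, add_div]
  map_smul' c f := by
    funext x
    simp only [Pi.smul_apply, smul_eq_mul, RingHom.id_apply, ← mul_sum, mul_div_assoc]

lemma av_apply (n : ℕ) (a : H) (f : H → ℝ) (x : H) :
    av n a f x = (∑ j ∈ range (n + 1), f (x + j • a)) / ((n : ℝ) + 1) := rfl

lemma av_comm (n m : ℕ) (a b : H) : av n a * av m b = av m b * av n a := by
  ext f x
  show av n a (av m b f) x = av m b (av n a f) x
  simp only [av_apply]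
  rw [← sum_div, ← sum_div, sum_comm, div_div, div_div, mul_comm ((m : ℝ) + 1)]
  congr 1
  refine sum_congr rfl fun i _ => sum_congr rfl fun j _ => ?_
  congr 1
  abel

/-- the products of averages -/
def TT (H : Type*) [AddCommGroup H] : Submonoid (Module.End ℝ (H → ℝ)) :=
  Submonoid.closure {T | ∃ (n : ℕ) (a : H), T = av n a}

lemma av_mem (n : ℕ) (a : H) : av n a ∈ TT H := Submonoid.subset_closure ⟨n, a, rfl⟩

lemma TT_comm {T T' : Module.End ℝ (H → ℝ)} (h : T ∈ TT H) (h' : T' ∈ TT H) : T * T' = T' * T := by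
  have hc : ∀ A ∈ {T : Module.End ℝ (H → ℝ) | ∃ (n : ℕ) (a : H), T = av n a},
      ∀ B ∈ {T : Module.End ℝ (H → ℝ) | ∃ (n : ℕ) (a : H), T = av n a}, A * B = B * A := by
    rintro A ⟨n, a, rfl⟩ B ⟨m, b, rfl⟩
    exact av_comm n m a b
  have h1 := Submonoid.isMulCommutative_closure _ hc
  exact congrArg Subtype.val (h1.is_comm.comm (⟨T, h⟩ : Submonoid.closure _) ⟨T', h'⟩)

lemma TT_le {T : Module.End ℝ (H → ℝ)} (h : T ∈ TT H) :
    ∀ (f : H → ℝ) (C : ℝ), (∀ x, f x ≤ C) → ∀ x, T f x ≤ C := by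
  refine Submonoid.closure_induction (motive := fun T _ => ∀ (f : H → ℝ) (C : ℝ), (∀ x, f x ≤ C) →
    ∀ x, T f x ≤ C) ?_ ?_ ?_ h
  · rintro T ⟨n, a, rfl⟩ f C hf x
    rw [av_apply, div_le_iff₀ (by positivity)]
    calc ∑ j ∈ range (n + 1), f (x + j • a) ≤ ∑ j ∈ range (n + 1), C := sum_le_sum fun j _ => hf _
      _ = C * ((n : ℝ) + 1) := by
        rw [sum_const, card_range, nsmul_eq_mul]
        push_cast
        ring
  · intro f C hf x
    exact hf x
  · intro T T' _ _ h1 h2 f C hf x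
    exact h1 (T' f) C (h2 f C hf) x

lemma TT_ge {T : Module.End ℝ (H → ℝ)} (h : T ∈ TT H) (f : H → ℝ) (C : ℝ) (hf : ∀ x, C ≤ f x) (x : H) :
    C ≤ T f x := by
  have h1 := TT_le h (-f) (-C) (fun y => by
    show -f y ≤ -C
    linarith [hf y]) x
  rw [map_neg] at h1
  have h2 : (-T f) x = -(T f x) := rfl
  rw [h2] at h1
  linarith

/-- bounded functions -/
def BF (H : Type*) : Submodule ℝ (H → ℝ) where
  carrier := {f | ∃ C : ℝ, ∀ x, |f x| ≤ C}
  zero_mem' := ⟨0, fun x => by simp⟩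
  add_mem' := by
    rintro f g ⟨C, hC⟩ ⟨D, hD⟩
    refine ⟨C + D, fun x => ?_⟩
    have := abs_add_le (f x) (g x)
    have h1 := hC x
    have h2 := hD x
    show |f x + g x| ≤ C + D
    linarith
  smul_mem' := by
    rintro c f ⟨C, hC⟩
    refine ⟨|c| * C, fun x => ?_⟩
    show |c * f x| ≤ |c| * C
    rw [abs_mul]
    exact mul_le_mul_of_nonneg_left (hC x) (abs_nonneg c)

/-- the upper bounds of the averages -/
def UB (f : H → ℝ) : Set ℝ := {C | ∃ T ∈ TT H, ∀ x, T f x ≤ C}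

lemma UB_bddBelow {f : H → ℝ} (hf : f ∈ BF H) : BddBelow (UB f) := by
  obtain ⟨C, hC⟩ := hf
  refine ⟨-C, ?_⟩
  rintro D ⟨T, hT, h⟩
  exact (TT_ge hT f (-C) (fun x => (abs_le.1 (hC x)).1) 0).trans (h 0)

lemma UB_mem {f : H → ℝ} {C : ℝ} (h : ∀ x, f x ≤ C) : C ∈ UB f := ⟨1, one_mem _, h⟩

lemma UB_nonempty {f : H → ℝ} (hf : f ∈ BF H) : (UB f).Nonempty := by
  obtain ⟨C, hC⟩ := hf
  exact ⟨C, UB_mem fun x => (abs_le.1 (hC x)).2⟩

/-- the sublinear functional -/
noncomputable def sub (f : H → ℝ) : ℝ := sInf (UB f)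

lemma sub_le {f : H → ℝ} (hf : f ∈ BF H) {C : ℝ} (h : C ∈ UB f) : sub f ≤ C :=
  csInf_le (UB_bddBelow hf) h

lemma sub_add {f g : H → ℝ} (hf : f ∈ BF H) (hg : g ∈ BF H) : sub (f + g) ≤ sub f + sub g := by
  have key : ∀ C ∈ UB f, ∀ D ∈ UB g, sub (f + g) ≤ C + D := by
    rintro C ⟨T, hT, h1⟩ D ⟨T', hT', h2⟩
    refine sub_le ((BF H).add_mem hf hg) ⟨T * T', mul_mem hT hT', fun x => ?_⟩
    rw [map_add]
    show (T * T') f x + (T * T') g x ≤ C + D
    have e1 : (T * T') f x ≤ C := by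
      rw [TT_comm hT hT']
      exact TT_le hT' (T f) C h1 x
    have e2 : (T * T') g x ≤ D := TT_le hT (T' g) D h2 x
    linarith
  have h1 : ∀ D ∈ UB g, sub (f + g) - D ≤ sub f := fun D hD =>
    le_csInf (UB_nonempty hf) fun C hC => by linarith [key C hC D hD]
  have h2 : sub (f + g) - sub f ≤ sub g :=
    le_csInf (UB_nonempty hg) fun D hD => by linarith [h1 D hD]
  linarith

lemma sub_smul_le {f : H → ℝ} (hf : f ∈ BF H) {c : ℝ} (hc : 0 < c) : sub (c • f) ≤ c * sub f := by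
  have h1 : sub (c • f) / c ≤ sub f := by
    refine le_csInf (UB_nonempty hf) ?_
    rintro C ⟨T, hT, h⟩
    rw [div_le_iff₀ hc]
    refine sub_le ((BF H).smul_mem c hf) ⟨T, hT, fun x => ?_⟩
    rw [map_smul]
    show c * T f x ≤ C * c
    rw [mul_comm C]
    exact mul_le_mul_of_nonneg_left (h x) hc.le
  rw [div_le_iff₀ hc] at h1
  linarith

lemma sub_smul {f : H → ℝ} (hf : f ∈ BF H) {c : ℝ} (hc : 0 < c) : sub (c • f) = c * sub f := by
  refine le_antisymm (sub_smul_le hf hc) ?_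
  have h1 := sub_smul_le ((BF H).smul_mem c hf) (inv_pos.2 hc)
  rw [smul_smul, inv_mul_cancel₀ hc.ne', one_smul] at h1
  have h2 := mul_le_mul_of_nonneg_left h1 hc.le
  rwa [← mul_assoc, mul_inv_cancel₀ hc.ne', one_mul] at h2

lemma shift_mem {f : H → ℝ} (hf : f ∈ BF H) (a : H) : (fun x => f (x + a)) ∈ BF H := by
  obtain ⟨C, hC⟩ := hf
  exact ⟨C, fun x => hC _⟩

lemma sub_shift {f : H → ℝ} (hf : f ∈ BF H) (a : H) : sub (f - fun x => f (x + a)) ≤ 0 := by
  obtain ⟨C, hC⟩ := hf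
  have hC0 : 0 ≤ C := (abs_nonneg _).trans (hC 0)
  have hmem : f - (fun x => f (x + a)) ∈ BF H := (BF H).sub_mem ⟨C, hC⟩ (shift_mem ⟨C, hC⟩ a)
  have key : ∀ n : ℕ, sub (f - fun x => f (x + a)) ≤ 2 * C / ((n : ℝ) + 1) := by
    intro n
    refine sub_le hmem ⟨av n a, av_mem n a, fun x => ?_⟩
    rw [av_apply]
    refine div_le_div_of_nonneg_right ?_ (by positivity)
    have e : ∀ j : ℕ, (f - fun x => f (x + a)) (x + j • a) =
        (fun j : ℕ => f (x + j • a)) j - (fun j : ℕ => f (x + j • a)) (j + 1) := by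
      intro j
      show f (x + j • a) - f (x + j • a + a) = f (x + j • a) - f (x + (j + 1) • a)
      rw [succ_nsmul, add_assoc]
    rw [sum_congr rfl fun j _ => e j, sum_range_sub']
    show f (x + 0 • a) - f (x + (n + 1) • a) ≤ 2 * C
    have h1 := (abs_le.1 (hC (x + 0 • a))).2
    have h2 := (abs_le.1 (hC (x + (n + 1) • a))).1
    linarith
  refine ge_of_tendsto' (f := fun n : ℕ => 2 * C / ((n : ℝ) + 1)) (x := Filter.atTop) ?_ key
  exact tendsto_const_div_atTop_nhds_zero_nat (2 * C) |>.comp (Filter.tendsto_add_atTop_nat 1) |>.congr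
    (fun n => by simp [Function.comp])

/-- every abelian group has an invariant mean -/
theorem exists_mean (H : Type*) [AddCommGroup H] : ∃ m : (H → ℝ) → ℝ,
    (∀ f ∈ BF H, ∀ g ∈ BF H, m (f + g) = m f + m g) ∧
    (∀ f ∈ BF H, m (-f) = - m f) ∧
    (∀ f ∈ BF H, ∀ a : H, m (fun x => f (x + a)) = m f) ∧
    (∀ f ∈ BF H, ∀ C : ℝ, (∀ x, f x ≤ C) → m f ≤ C) ∧
    (∀ f ∈ BF H, ∀ C : ℝ, (∀ x, C ≤ f x) → C ≤ m f) := by
  classical
  obtain ⟨g, -, hg⟩ := exists_extension_of_le_sublinear (⊥ : (BF H) →ₗ.[ℝ] ℝ) (fun f => sub (f : H → ℝ))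
    (fun c hc f => sub_smul f.2 hc) (fun f f' => sub_add f.2 f'.2) (by
      rintro ⟨f, hf⟩
      have h0 : f = 0 := (Submodule.mem_bot ℝ).1 hf
      subst h0
      have h1 := sub_smul (H := H) (BF H).zero_mem (c := 2) (by norm_num)
      rw [smul_zero] at h1
      have h2 : sub (0 : H → ℝ) = 0 := by linarith
      have h3 : ((⟨0, hf⟩ : (⊥ : (BF H) →ₗ.[ℝ] ℝ).domain) : BF H) = 0 := rfl
      show (⊥ : (BF H) →ₗ.[ℝ] ℝ) ⟨0, hf⟩ ≤ sub ((0 : BF H) : H → ℝ)
      rw [show ((0 : BF H) : H → ℝ) = 0 from rfl, h2]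
      exact le_of_eq (LinearPMap.map_zero _))
  have hm : ∀ (f : H → ℝ) (hf : f ∈ BF H), (if h : f ∈ BF H then g ⟨f, h⟩ else 0) = g ⟨f, hf⟩ :=
    fun f hf => dif_pos hf
  refine ⟨fun f => if h : f ∈ BF H then g ⟨f, h⟩ else 0, ?_, ?_, ?_, ?_, ?_⟩
  · intro f hf f' hf'
    show (if h : f + f' ∈ BF H then g ⟨f + f', h⟩ else 0) = (if h : f ∈ BF H then g ⟨f, h⟩ else 0) +
      (if h : f' ∈ BF H then g ⟨f', h⟩ else 0)
    rw [hm f hf, hm f' hf', hm _ ((BF H).add_mem hf hf'), ← map_add]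
    rfl
  · intro f hf
    show (if h : -f ∈ BF H then g ⟨-f, h⟩ else 0) = -(if h : f ∈ BF H then g ⟨f, h⟩ else 0)
    rw [hm f hf, hm _ ((BF H).neg_mem hf), ← map_neg]
    rfl
  · intro f hf a
    show (if h : (fun x => f (x + a)) ∈ BF H then g ⟨_, h⟩ else 0) = (if h : f ∈ BF H then g ⟨f, h⟩ else 0)
    rw [hm f hf, hm _ (shift_mem hf a)]
    have h1 : g ⟨f, hf⟩ - g ⟨_, shift_mem hf a⟩ ≤ 0 := by
      rw [← map_sub]
      exact (hg _).trans (sub_shift hf a)
    have h2 : g ⟨_, shift_mem hf a⟩ - g ⟨f, hf⟩ ≤ 0 := by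
      rw [← map_sub]
      refine (hg _).trans ?_
      have h3 := sub_shift ((BF H).neg_mem hf) a
      refine le_trans (le_of_eq ?_) h3
      show sub (fun x => f (x + a) - f x) = sub (fun x => -f x - -f (x + a))
      congr 1
      funext x
      ring
    linarith
  · intro f hf C h
    show (if h : f ∈ BF H then g ⟨f, h⟩ else 0) ≤ C
    rw [hm f hf]
    exact (hg _).trans (sub_le hf (UB_mem h))
  · intro f hf C h
    show C ≤ (if h : f ∈ BF H then g ⟨f, h⟩ else 0)
    rw [hm f hf]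
    have h1 : g (-⟨f, hf⟩) ≤ -C := (hg _).trans (sub_le ((BF H).neg_mem hf) (UB_mem fun x => by
      show -f x ≤ -C
      linarith [h x]))
    rw [map_neg] at h1
    linarith

/-! # Circular colourings of Cayley graphs of abelian groups -/

lemma coe_eq_of_sub {x y : ℝ} {n : ℤ} (h : x - y = n) : (x : UnitAddCircle) = (y : UnitAddCircle) := by
  rw [← sub_eq_zero, ← AddCircle.coe_sub, AddCircle.coe_eq_zero_iff]
  exact ⟨n, by rw [h]; simp⟩

lemma le_norm_of_mem {q θ : ℝ} (h1 : q ≤ θ) (h2 : θ ≤ 1 - q) : q ≤ ‖(θ : UnitAddCircle)‖ := by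
  rw [UnitAddCircle.norm_eq]
  rcases le_or_gt (round θ) 0 with h | h
  · have h3 : ((round θ : ℤ) : ℝ) ≤ 0 := by exact_mod_cast h
    exact le_trans (by linarith) (le_abs_self _)
  · have h3 : (1 : ℝ) ≤ ((round θ : ℤ) : ℝ) := by exact_mod_cast h
    exact le_trans (by linarith) (neg_le_abs _)

section core

variable {H : Type*} [AddCommGroup H]

/-- the relation between group elements and mean displacements -/
def Rel (S : Set H) (g : H → ℝ) (e : H → H → ℝ) (m : (H → ℝ) → ℝ) (h : H) (θ : ℝ) : Prop :=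
  ∃ f : H → ℝ, f ∈ BF H ∧ (∀ x, ∃ k : ℤ, g (x + h) - g x = f x + k) ∧
    (∀ t ∈ S, ∀ x, f (x + t) - f x = e t (x + h) - e t x) ∧ m f = θ

lemma coreH (S : Set H) (hcl : AddSubgroup.closure S = ⊤) (q : ℝ) (hq : 1 / 4 < q) (g : H → ℝ)
    (hg : ∀ x, ∀ s ∈ S, ∀ k : ℤ, q ≤ |g (x + s) - g x - k|) :
    ∃ χ : H →+ UnitAddCircle, ∀ s ∈ S, q ≤ ‖χ s‖ := by
  obtain ⟨m, madd, mneg, mshift, mle, mge⟩ := exists_mean H
  obtain ⟨e, he⟩ : ∃ e : H → H → ℝ, ∀ s x, e s x = Int.fract (g (x + s) - g x) := ⟨_, fun _ _ => rfl⟩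
  have hint : ∀ s x, ∃ k : ℤ, g (x + s) - g x = e s x + k := by
    intro s x
    refine ⟨⌊g (x + s) - g x⌋, ?_⟩
    rw [he]
    have := Int.fract_add_floor (g (x + s) - g x)
    linarith
  have hlo : ∀ s ∈ S, ∀ x, q ≤ e s x := by
    intro s hs x
    have h1 := hg x s hs ⌊g (x + s) - g x⌋
    have h3 := Int.fract_add_floor (g (x + s) - g x)
    have h4 := Int.fract_nonneg (g (x + s) - g x)
    have e1 : g (x + s) - g x - (⌊g (x + s) - g x⌋ : ℝ) = Int.fract (g (x + s) - g x) := by linarith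
    rw [e1, abs_of_nonneg h4] at h1
    rw [he]
    exact h1
  have hhi : ∀ s ∈ S, ∀ x, e s x ≤ 1 - q := by
    intro s hs x
    have h2 := hg x s hs (⌊g (x + s) - g x⌋ + 1)
    have h3 := Int.fract_add_floor (g (x + s) - g x)
    have h5 := Int.fract_lt_one (g (x + s) - g x)
    have e2 : g (x + s) - g x - ((⌊g (x + s) - g x⌋ + 1 : ℤ) : ℝ) = Int.fract (g (x + s) - g x) - 1 := by
      push_cast; linarith
    rw [e2, abs_of_neg (by linarith)] at h2
    rw [he]
    linarith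
  have hfour : ∀ s ∈ S, ∀ t ∈ S, ∀ x, e s (x + t) - e s x = e t (x + s) - e t x := by
    intro s hs t ht x
    obtain ⟨k1, h1⟩ := hint s x
    obtain ⟨k2, h2⟩ := hint t (x + s)
    obtain ⟨k3, h3⟩ := hint t x
    obtain ⟨k4, h4⟩ := hint s (x + t)
    have hcomm : x + t + s = x + s + t := by abel
    rw [hcomm] at h4
    have hz : e s x + e t (x + s) - (e t x + e s (x + t)) = ((k3 + k4 - k1 - k2 : ℤ) : ℝ) := by
      push_cast; linarith
    have a1 := hlo s hs x
    have a2 := hlo t ht (x + s)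
    have a3 := hlo t ht x
    have a4 := hlo s hs (x + t)
    have b1 := hhi s hs x
    have b2 := hhi t ht (x + s)
    have b3 := hhi t ht x
    have b4 := hhi s hs (x + t)
    have hlt : |((k3 + k4 - k1 - k2 : ℤ) : ℝ)| < 1 := by
      rw [← hz, abs_lt]; constructor <;> linarith
    have hz0 : (k3 + k4 - k1 - k2 : ℤ) = 0 := by
      rw [← Int.abs_lt_one_iff]
      exact_mod_cast hlt
    rw [hz0] at hz
    push_cast at hz
    linarith
  have hbd : ∀ s ∈ S, e s ∈ BF H := fun s hs => ⟨1, fun x => by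
    have a1 := hlo s hs x
    have b1 := hhi s hs x
    rw [abs_le]
    constructor <;> linarith⟩
  have hconst : ∀ c : ℝ, (fun _ => c : H → ℝ) ∈ BF H := fun c => ⟨|c|, fun _ => le_rfl⟩
  have mconst : ∀ c : ℝ, m (fun _ => c) = c := fun c =>
    le_antisymm (mle _ (hconst c) c fun _ => le_rfl) (mge _ (hconst c) c fun _ => le_rfl)
  -- the subgroup of `H × ℝ`
  let L : AddSubgroup (H × ℝ) :=
    { carrier := {p | Rel S g e m p.1 p.2}
      zero_mem' := ⟨fun _ => 0, hconst 0, fun x => ⟨0, by simp⟩, fun t _ x => by simp, mconst 0⟩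
      add_mem' := by
        rintro ⟨h, θ⟩ ⟨h', θ'⟩ ⟨f, f1, f2, f3, f4⟩ ⟨f', f1', f2', f3', f4'⟩
        refine ⟨f + fun x => f' (x + h), (BF H).add_mem f1 (shift_mem f1' h), ?_, ?_, ?_⟩
        · intro x
          obtain ⟨k, hk⟩ := f2 x
          obtain ⟨k', hk'⟩ := f2' (x + h)
          refine ⟨k + k', ?_⟩
          show g (x + (h + h')) - g x = f x + f' (x + h) + ((k + k' : ℤ) : ℝ)
          rw [← add_assoc]
          push_cast
          linarith
        · intro t ht x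
          have a1 := f3 t ht x
          have a2 := f3' t ht (x + h)
          have a3 : x + t + h = x + h + t := by abel
          show f (x + t) + f' (x + t + h) - (f x + f' (x + h)) = e t (x + (h + h')) - e t x
          rw [a3, ← add_assoc x h h']
          linarith
        · rw [madd _ f1 _ (shift_mem f1' h), mshift f' f1' h, f4, f4']
          rfl
      neg_mem' := by
        rintro ⟨h, θ⟩ ⟨f, f1, f2, f3, f4⟩
        refine ⟨-(fun x => f (x + -h)), (BF H).neg_mem (shift_mem f1 (-h)), ?_, ?_, ?_⟩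
        · intro x
          obtain ⟨k, hk⟩ := f2 (x + -h)
          refine ⟨-k, ?_⟩
          show g (x + -h) - g x = -f (x + -h) + ((-k : ℤ) : ℝ)
          rw [neg_add_cancel_right] at hk
          push_cast
          linarith
        · intro t ht x
          have a1 := f3 t ht (x + -h)
          rw [neg_add_cancel_right] at a1
          have a3 : x + t + -h = x + -h + t := by abel
          show -f (x + t + -h) - -f (x + -h) = e t (x + -h) - e t x
          rw [a3]
          linarith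
        · rw [mneg _ (shift_mem f1 (-h)), mshift f f1 (-h), f4]
          rfl }
  have hgen : ∀ s ∈ S, (s, m (e s)) ∈ L := fun s hs =>
    ⟨e s, hbd s hs, hint s, fun t ht x => hfour s hs t ht x, rfl⟩
  have hker : ∀ θ : ℝ, ((0 : H), θ) ∈ L → ∃ n : ℤ, θ = n := by
    rintro θ ⟨f, f1, f2, f3, f4⟩
    have hc : ∀ h : H, ∀ x, f (x + h) = f x := by
      intro h
      have hh : h ∈ AddSubgroup.closure S := by rw [hcl]; trivial
      refine AddSubgroup.closure_induction (p := fun h _ => ∀ x, f (x + h) = f x) ?_ ?_ ?_ ?_ hh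
      · intro t ht x
        have := f3 t ht x
        simp only [add_zero, sub_self] at this
        linarith
      · intro x
        rw [add_zero]
      · intro a b _ _ ha hb x
        rw [← add_assoc, hb, ha]
      · intro a _ ha x
        have := ha (x + -a)
        rw [neg_add_cancel_right] at this
        exact this.symm
    obtain ⟨k, hk⟩ := f2 0
    refine ⟨-k, ?_⟩
    have e1 : f = fun _ => f 0 := by
      funext x
      have := hc x 0
      rwa [zero_add] at this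
    have e2 : m f = f 0 := by
      rw [e1]
      exact mconst _
    simp only [add_zero, sub_self] at hk
    push_cast
    have f4' : m f = θ := f4
    linarith
  have hex : ∀ h : H, ∃ θ : ℝ, (h, θ) ∈ L := by
    intro h
    have hh : h ∈ AddSubgroup.closure S := by rw [hcl]; trivial
    refine AddSubgroup.closure_induction (p := fun h _ => ∃ θ : ℝ, (h, θ) ∈ L) ?_ ?_ ?_ ?_ hh
    · exact fun s hs => ⟨_, hgen s hs⟩
    · exact ⟨0, L.zero_mem⟩
    · rintro a b _ _ ⟨x, hx⟩ ⟨y, hy⟩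
      exact ⟨x + y, L.add_mem hx hy⟩
    · rintro a _ ⟨x, hx⟩
      exact ⟨-x, L.neg_mem hx⟩
  have huniq : ∀ (h : H) (x y : ℝ), (h, x) ∈ L → (h, y) ∈ L → (x : UnitAddCircle) = y := by
    intro h x y hx hy
    have h1 := L.sub_mem hx hy
    have h2 : ((h, x) - (h, y) : H × ℝ) = (0, x - y) := by simp
    rw [h2] at h1
    obtain ⟨n, hn⟩ := hker _ h1
    exact coe_eq_of_sub hn
  choose θ hθ using hex
  refine ⟨AddMonoidHom.mk' (fun h => (θ h : UnitAddCircle)) fun a b => ?_, fun s hs => ?_⟩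
  · rw [← AddCircle.coe_add]
    exact huniq (a + b) _ _ (hθ _) (L.add_mem (hθ a) (hθ b))
  · show q ≤ ‖((θ s : ℝ) : UnitAddCircle)‖
    rw [huniq s _ _ (hθ s) (hgen s hs)]
    exact le_norm_of_mem (mge _ (hbd s hs) q (hlo s hs)) (mle _ (hbd s hs) (1 - q) (hhi s hs))

/-- a circular colouring with adjacent vertices at circular distance more than a quarter of the circle
yields a character -/
theorem core_group (S : Set H) (q : ℝ) (hq : 1 / 4 < q) (g : H → ℝ)
    (hg : ∀ x, ∀ s ∈ S, ∀ k : ℤ, q ≤ |g (x + s) - g x - k|) :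
    ∃ χ : H →+ UnitAddCircle, ∀ s ∈ S, q ≤ ‖χ s‖ := by
  have hcl : AddSubgroup.closure (((↑) : AddSubgroup.closure S → H) ⁻¹' S) = ⊤ :=
    AddSubgroup.closure_closure_coe_preimage
  obtain ⟨χ, hχ⟩ : ∃ χ : AddSubgroup.closure S →+ UnitAddCircle,
      ∀ s ∈ (((↑) : AddSubgroup.closure S → H) ⁻¹' S), q ≤ ‖χ s‖ :=
    coreH _ hcl q hq (fun x : AddSubgroup.closure S => g (x : H))
      (fun x s hs k => hg (x : H) (s : H) hs k)
  have hB : Module.Baer ℤ UnitAddCircle := Module.Baer.of_divisible UnitAddCircle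
  obtain ⟨ψ, hψ⟩ := hB.extension_property_addMonoidHom (AddSubgroup.closure S).subtype
    (AddSubgroup.subtype_injective _) χ
  refine ⟨ψ, fun s hs => ?_⟩
  have hs' : s ∈ AddSubgroup.closure S := AddSubgroup.subset_closure hs
  have h1 : q ≤ ‖χ ⟨s, hs'⟩‖ := hχ ⟨s, hs'⟩ hs
  have h2 : ψ s = χ ⟨s, hs'⟩ := DFunLike.congr_fun hψ (⟨s, hs'⟩ : AddSubgroup.closure S)
  rw [h2]
  exact h1

end core

end Pool.Agent.Lib.MP_2bc700_co
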