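import Mathlib

/-!
# Quadratic phases are of no help for covering generating sets

Tools: complete quadratic Gauss sums, positivity of Fejer type products, thickening of a generating set.
-/

set_option autoImplicit false

namespace Pool.Agent.Lib.MP_2bc700_co.Thick

open Finset

noncomputable section

/-- the distance of `y / p` to the nearest integer, for `y` in `ℤ/p` -/
def distInt (p : ℕ) (y : ZMod p) : ℝ :=
  |(y.val : ℝ) / p - round ((y.val : ℝ) / p)|

lemma exp_shift (t : ℝ) (n : ℤ) :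
    Complex.exp (Complex.I * ((2 * Real.pi * (t - n) : ℝ) : ℂ)) =
      Complex.exp (Complex.I * ((2 * Real.pi * t : ℝ) : ℂ)) := by
  rw [Complex.exp_eq_exp_iff_exists_int]
  refine ⟨-n, ?_⟩
  push_cast
  ring

lemma norm_sub_one_ge (t : ℝ) (n : ℤ) (h : |t - n| ≤ 1 / 2) :
    4 * |t - n| ≤ ‖Complex.exp (Complex.I * ((2 * Real.pi * t : ℝ) : ℂ)) - 1‖ := by
  rw [← exp_shift t n, Complex.norm_exp_I_mul_ofReal_sub_one, Real.norm_eq_abs, abs_mul,
    abs_of_pos (by norm_num : (0 : ℝ) < 2)]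
  have e : 2 * Real.pi * (t - n) / 2 = Real.pi * (t - n) := by ring
  rw [e]
  have h1 : |Real.sin (Real.pi * (t - n))| = Real.sin (Real.pi * |t - n|) := by
    rcases abs_cases (t - n) with ⟨h2, h3⟩ | ⟨h2, h3⟩
    · rw [h2, abs_of_nonneg]
      apply Real.sin_nonneg_of_nonneg_of_le_pi
      · have := Real.pi_pos; positivity
      · rw [h2] at h; nlinarith [Real.pi_pos]
    · rw [h2]
      have e2 : Real.pi * -(t - n) = -(Real.pi * (t - n)) := by ring
      rw [e2, Real.sin_neg, abs_of_nonpos]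
      have h4 : 0 ≤ Real.sin (Real.pi * -(t - n)) := by
        apply Real.sin_nonneg_of_nonneg_of_le_pi
        · have := Real.pi_pos
          have : 0 ≤ -(t - n) := by linarith
          positivity
        · rw [h2] at h; nlinarith [Real.pi_pos]
      rw [e2, Real.sin_neg] at h4
      linarith
  rw [h1]
  have h5 := Real.mul_le_sin (x := Real.pi * |t - n|) (by positivity) (by nlinarith [Real.pi_pos])
  have e3 : 2 / Real.pi * (Real.pi * |t - n|) = 2 * |t - n| := by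
    field_simp
  rw [e3] at h5
  linarith

lemma norm_add_one_sq (w : ℂ) (hw : ‖w‖ = 1) : ‖1 + w‖ ^ 2 = 4 - ‖w - 1‖ ^ 2 := by
  have h := parallelogram_law_with_norm ℝ w 1
  have e : ‖w + 1‖ = ‖1 + w‖ := by rw [add_comm]
  rw [e, hw] at h
  simp only [norm_one] at h
  nlinarith

lemma norm_add_one_sq_le (w : ℂ) (hw : ‖w‖ = 1) (d : ℝ) (hd : 0 ≤ d) (h : 4 * d ≤ ‖w - 1‖) :
    ‖1 + w‖ ^ 2 ≤ 4 * (1 - 4 * d ^ 2) := by
  rw [norm_add_one_sq w hw]
  nlinarith

lemma stdAddChar_eq (p : ℕ) [NeZero p] (y : ZMod p) :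
    ZMod.stdAddChar y = Complex.exp (Complex.I * ((2 * Real.pi * ((y.val : ℝ) / p) : ℝ) : ℂ)) := by
  have h := ZMod.stdAddChar_coe (N := p) (y.val : ℤ)
  have e : (((y.val : ℤ) : ZMod p)) = y := by
    rw [Int.cast_natCast, ZMod.natCast_zmod_val]
  rw [e] at h
  rw [h]
  congr 1
  push_cast
  ring

lemma norm_std (p : ℕ) [NeZero p] (y : ZMod p) : ‖(ZMod.stdAddChar y : ℂ)‖ = 1 :=
  AddChar.norm_apply _ _

lemma norm_one_add_std_le (p : ℕ) [NeZero p] (y : ZMod p) (r : ℝ) (hr : 0 ≤ r) (h : r ≤ distInt p y) :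
    ‖1 + (ZMod.stdAddChar y : ℂ)‖ ^ 2 ≤ 4 * (1 - 4 * r ^ 2) := by
  apply norm_add_one_sq_le _ (norm_std p y) r hr
  rw [stdAddChar_eq]
  refine le_trans ?_ (norm_sub_one_ge _ (round ((y.val : ℝ) / p)) (abs_sub_round _))
  unfold distInt at h
  linarith

lemma norm_one_add_std_le_four (p : ℕ) [NeZero p] (y : ZMod p) :
    ‖1 + (ZMod.stdAddChar y : ℂ)‖ ^ 2 ≤ 4 := by
  have h := norm_one_add_std_le p y 0 le_rfl (abs_nonneg _)
  simpa using h

lemma re_std_nonneg (p : ℕ) [NeZero p] (y : ZMod p) (h : distInt p y ≤ 1 / 4) :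
    0 ≤ (ZMod.stdAddChar y : ℂ).re := by
  rw [stdAddChar_eq, ← exp_shift _ (round ((y.val : ℝ) / p)), mul_comm, Complex.exp_ofReal_mul_I_re]
  apply Real.cos_nonneg_of_neg_pi_div_two_le_of_le
  · unfold distInt at h
    have := (abs_le.mp h).1
    nlinarith [Real.pi_pos]
  · unfold distInt at h
    have := (abs_le.mp h).2
    nlinarith [Real.pi_pos]

lemma conj_std (p : ℕ) [NeZero p] (y : ZMod p) :
    (starRingEnd ℂ) (ZMod.stdAddChar y : ℂ) = ZMod.stdAddChar (-y) := by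
  rw [AddChar.map_neg_eq_conj]

/-- complete quadratic Gauss sums -/
lemma gauss_sq (p : ℕ) [Fact p.Prime] (hp : 2 < p) (α β : ZMod p) (hα : α ≠ 0) :
    ‖∑ x : ZMod p, (ZMod.stdAddChar (α * x ^ 2 + β * x) : ℂ)‖ ^ 2 = p := by
  have key : (∑ x : ZMod p, (ZMod.stdAddChar (α * x ^ 2 + β * x) : ℂ)) *
      (starRingEnd ℂ) (∑ x : ZMod p, (ZMod.stdAddChar (α * x ^ 2 + β * x) : ℂ)) = p := by
    rw [map_sum, Finset.sum_mul_sum, Finset.sum_comm]
    have h1 : ∀ y : ZMod p, ∑ x : ZMod p, (ZMod.stdAddChar (α * x ^ 2 + β * x) : ℂ) *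
        (starRingEnd ℂ) (ZMod.stdAddChar (α * y ^ 2 + β * y)) =
        ∑ h : ZMod p, (ZMod.stdAddChar (α * h ^ 2 + β * h) : ℂ) * ZMod.stdAddChar (y * (2 * α * h)) := by
      intro y
      rw [← Equiv.sum_comp (Equiv.addRight y)]
      apply Finset.sum_congr rfl
      intro h _
      rw [conj_std, ← AddChar.map_add_eq_mul, ← AddChar.map_add_eq_mul]
      congr 1
      simp only [Equiv.coe_addRight]
      ring
    rw [Finset.sum_congr rfl (fun y _ => h1 y), Finset.sum_comm]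
    have h2 : ∀ h : ZMod p, ∑ y : ZMod p, (ZMod.stdAddChar (α * h ^ 2 + β * h) : ℂ) *
        ZMod.stdAddChar (y * (2 * α * h)) = if h = 0 then (p : ℂ) else 0 := by
      intro h
      rw [← Finset.mul_sum, AddChar.sum_mulShift _ (ZMod.isPrimitive_stdAddChar p)]
      have h2ne : (2 : ZMod p) ≠ 0 := by
        intro h0
        have h3 : ((2 : ℕ) : ZMod p) = 0 := by exact_mod_cast h0
        rw [ZMod.natCast_eq_zero_iff] at h3
        exact absurd (Nat.le_of_dvd (by norm_num) h3) (by omega)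
      by_cases hh : h = 0
      · subst hh
        simp [ZMod.card]
      · have h4 : 2 * α * h ≠ 0 := mul_ne_zero (mul_ne_zero h2ne hα) hh
        rw [if_neg h4, if_neg hh]
        simp
    rw [Finset.sum_congr rfl (fun h _ => h2 h)]
    simp
  have h3 := congrArg Complex.re key
  rw [Complex.mul_conj, Complex.ofReal_re, Complex.natCast_re] at h3
  rw [← Complex.normSq_eq_norm_sq]
  exact h3

/-- expansion of a quadratic mean -/
lemma sum_norm_sq {ι X : Type} [Fintype ι] [Fintype X] (c : ι → ℝ) (φ : ι → X → ℂ) :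
    ∑ x, ‖∑ i, (c i : ℂ) * φ i x‖ ^ 2 =
      ∑ i, ∑ j, c i * c j * (∑ x, φ i x * (starRingEnd ℂ) (φ j x)).re := by
  have h1 : ∀ x, ‖∑ i, (c i : ℂ) * φ i x‖ ^ 2 =
      ∑ i, ∑ j, c i * c j * (φ i x * (starRingEnd ℂ) (φ j x)).re := by
    intro x
    have h2 : ((‖∑ i, (c i : ℂ) * φ i x‖ ^ 2 : ℝ) : ℂ) =
        (∑ i, (c i : ℂ) * φ i x) * (starRingEnd ℂ) (∑ i, (c i : ℂ) * φ i x) := by
      rw [Complex.mul_conj, Complex.normSq_eq_norm_sq]
    have h3 := congrArg Complex.re h2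
    rw [Complex.ofReal_re] at h3
    rw [h3, map_sum, Finset.sum_mul_sum, Complex.re_sum]
    apply Finset.sum_congr rfl
    intro i _
    rw [Complex.re_sum]
    apply Finset.sum_congr rfl
    intro j _
    rw [map_mul, Complex.conj_ofReal]
    have e : (c i : ℂ) * φ i x * ((c j : ℂ) * (starRingEnd ℂ) (φ j x)) =
        ((c i * c j : ℝ) : ℂ) * (φ i x * (starRingEnd ℂ) (φ j x)) := by
      push_cast; ring
    rw [e, Complex.re_ofReal_mul]
  rw [Finset.sum_congr rfl (fun x _ => h1 x), Finset.sum_comm]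
  apply Finset.sum_congr rfl
  intro i _
  rw [Finset.sum_comm]
  apply Finset.sum_congr rfl
  intro j _
  rw [Complex.re_sum, Finset.mul_sum]

lemma sum_norm_sq_ge {ι X : Type} [Fintype ι] [DecidableEq ι] [Fintype X] (c : ι → ℝ)
    (hc : ∀ i, 0 ≤ c i) (φ : ι → X → ℂ) (P E : ℝ)
    (h : ∀ i j, (if i = j then P else 0) - E ≤ (∑ x, φ i x * (starRingEnd ℂ) (φ j x)).re) :
    P * ∑ i, c i ^ 2 - E * (∑ i, c i) ^ 2 ≤ ∑ x, ‖∑ i, (c i : ℂ) * φ i x‖ ^ 2 := by
  rw [sum_norm_sq]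
  have h1 : P * ∑ i, c i ^ 2 - E * (∑ i, c i) ^ 2 =
      ∑ i, ∑ j, c i * c j * ((if i = j then P else 0) - E) := by
    have h2 : ∀ i j, c i * c j * ((if i = j then P else 0) - E) =
        (if i = j then P * (c i * c j) else 0) - E * (c i * c j) := by
      intro i j
      by_cases hij : i = j
      · simp only [hij, if_true]; ring
      · simp only [hij, if_false]; ring
    simp only [h2, Finset.sum_sub_distrib, Finset.sum_ite_eq, Finset.mem_univ, if_true]
    rw [Finset.mul_sum, sq (∑ i, c i), Finset.sum_mul_sum, Finset.mul_sum]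
    congr 1
    · apply Finset.sum_congr rfl; intro i _; ring
    · apply Finset.sum_congr rfl; intro i _; rw [Finset.mul_sum]
  rw [h1]
  apply Finset.sum_le_sum
  intro i _
  apply Finset.sum_le_sum
  intro j _
  exact mul_le_mul_of_nonneg_left (h i j) (mul_nonneg (hc i) (hc j))

lemma sum_norm_sq_eq {ι X : Type} [Fintype ι] [DecidableEq ι] [Fintype X] (c : ι → ℝ)
    (φ : ι → X → ℂ) (P : ℝ)
    (h : ∀ i j, (∑ x, φ i x * (starRingEnd ℂ) (φ j x)).re = if i = j then P else 0) :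
    ∑ x, ‖∑ i, (c i : ℂ) * φ i x‖ ^ 2 = P * ∑ i, c i ^ 2 := by
  rw [sum_norm_sq, Finset.mul_sum]
  apply Finset.sum_congr rfl
  intro i _
  simp only [h]
  simp
  ring

end

end Pool.Agent.Lib.MP_2bc700_co.Thick
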