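import Mathlib
import Pool.Agent.Lib.MP_2bc700_co.Thick

/-!
# Expansion of the Fejer type product and the main inequality
-/

set_option autoImplicit false

namespace Pool.Agent.Lib.MP_2bc700_co.Thick

open Finset

noncomputable section

lemma map_sum_std (p : ℕ) [NeZero p] {ι : Type} (s : Finset ι) (f : ι → ZMod p) :
    (ZMod.stdAddChar (∑ i ∈ s, f i) : ℂ) = ∏ i ∈ s, ZMod.stdAddChar (f i) := by
  classical
  induction s using Finset.induction_on with
  | empty => simp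
  | insert i s hi ih => rw [Finset.sum_insert hi, Finset.prod_insert hi, AddChar.map_add_eq_mul, ih]

lemma map_mul_std (p : ℕ) [NeZero p] (n : ℕ) (x : ZMod p) :
    (ZMod.stdAddChar ((n : ZMod p) * x) : ℂ) = ZMod.stdAddChar x ^ n := by
  rw [← nsmul_eq_mul, AddChar.map_nsmul_eq_pow]

lemma one_add_pow (z : ℂ) (B : ℕ) :
    (1 + z) ^ B = ∑ k : Fin (B + 1), ((B.choose k : ℝ) : ℂ) * z ^ (k : ℕ) := by
  rw [add_comm, add_pow, Finset.sum_range]
  apply Finset.sum_congr rfl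
  intro k _
  push_cast
  ring

/-- index set -/
abbrev Idx (K N B : ℕ) : Type := Fin (B + 1) × (Fin K → Fin (N + 1))

/-- binomial coefficients -/
def coef (K N B : ℕ) (i : Idx K N B) : ℝ := (B.choose i.1 : ℝ) * ∏ j, (N.choose (i.2 j) : ℝ)

/-- characters of the expansion -/
def phi {p q : ℕ} [NeZero p] [NeZero q] (K N B : ℕ) (a b : Fin K → ZMod p) (s : ZMod q)
    (i : Idx K N B) (x : ZMod p) : ℂ :=
  ZMod.stdAddChar (-(((i.1 : ℕ) : ZMod q) * s)) *
    ZMod.stdAddChar (((i.1 : ℕ) : ZMod p) * x + ∑ j, ((i.2 j : ℕ) : ZMod p) * (a j * x ^ 2 + b j * x))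

lemma expand {p q : ℕ} [NeZero p] [NeZero q] (K N B : ℕ) (a b : Fin K → ZMod p) (s : ZMod q)
    (x : ZMod p) :
    ∑ i, (coef K N B i : ℂ) * phi K N B a b s i x =
      (1 + (ZMod.stdAddChar (-s) : ℂ) * ZMod.stdAddChar x) ^ B *
        ∏ j, (1 + (ZMod.stdAddChar (a j * x ^ 2 + b j * x) : ℂ)) ^ N := by
  rw [one_add_pow, Fintype.sum_prod_type]
  have h1 : ∏ j, (1 + (ZMod.stdAddChar (a j * x ^ 2 + b j * x) : ℂ)) ^ N =
      ∑ f : Fin K → Fin (N + 1), ∏ j, (((N.choose (f j) : ℝ) : ℂ) *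
        (ZMod.stdAddChar (a j * x ^ 2 + b j * x) : ℂ) ^ (f j : ℕ)) := by
    rw [Finset.prod_congr rfl (fun j _ => one_add_pow (ZMod.stdAddChar (a j * x ^ 2 + b j * x)) N),
      Finset.prod_univ_sum, Fintype.piFinset_univ]
  rw [h1, Finset.sum_mul_sum]
  apply Finset.sum_congr rfl
  intro k _
  apply Finset.sum_congr rfl
  intro f _
  unfold coef phi
  rw [AddChar.map_add_eq_mul, map_mul_std, map_sum_std, Finset.prod_mul_distrib, mul_pow]
  have e1 : -(((k : ℕ) : ZMod q) * s) = ((k : ℕ) : ZMod q) * (-s) := by ring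
  simp only [e1, map_mul_std]
  push_cast
  ring

lemma inner_eq {p q : ℕ} [NeZero p] [NeZero q] (K N B : ℕ) (a b : Fin K → ZMod p) (s : ZMod q)
    (i j : Idx K N B) :
    ∑ x, phi K N B a b s i x * (starRingEnd ℂ) (phi K N B a b s j x) =
      ZMod.stdAddChar (-((((i.1 : ℕ) : ZMod q) - ((j.1 : ℕ) : ZMod q)) * s)) *
        ∑ x : ZMod p, ZMod.stdAddChar
          ((∑ l, (((i.2 l : ℕ) : ZMod p) - ((j.2 l : ℕ) : ZMod p)) * a l) * x ^ 2 +
          ((((i.1 : ℕ) : ZMod p) - ((j.1 : ℕ) : ZMod p)) +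
            ∑ l, (((i.2 l : ℕ) : ZMod p) - ((j.2 l : ℕ) : ZMod p)) * b l) * x) := by
  rw [Finset.mul_sum]
  apply Finset.sum_congr rfl
  intro x _
  unfold phi
  rw [map_mul, conj_std, conj_std]
  have e : ∀ A B C D : ℂ, A * B * (C * D) = (A * C) * (B * D) := by intros; ring
  rw [e, ← AddChar.map_add_eq_mul, ← AddChar.map_add_eq_mul]
  congr 1
  · congr 1
    ring
  · congr 1
    have h1 : ∑ l, ((i.2 l : ℕ) : ZMod p) * (a l * x ^ 2 + b l * x) -
        ∑ l, ((j.2 l : ℕ) : ZMod p) * (a l * x ^ 2 + b l * x) =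
        (∑ l, (((i.2 l : ℕ) : ZMod p) - ((j.2 l : ℕ) : ZMod p)) * a l) * x ^ 2 +
        (∑ l, (((i.2 l : ℕ) : ZMod p) - ((j.2 l : ℕ) : ZMod p)) * b l) * x := by
      rw [← Finset.sum_sub_distrib, Finset.sum_mul, Finset.sum_mul, ← Finset.sum_add_distrib]
      apply Finset.sum_congr rfl
      intro l _
      ring
    linear_combination h1

/-- the linear character attached to a pair of exponent vectors -/
def bb (p q K N B : ℕ) (b : Fin K → ZMod p) (i j : Fin K → Fin (N + 1)) : ZMod q :=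
  open Classical in
  if h : ∃ kk : Fin (B + 1) × Fin (B + 1), (((kk.1 : ℕ) : ZMod p) - ((kk.2 : ℕ) : ZMod p)) +
      ∑ l, (((i l : ℕ) : ZMod p) - ((j l : ℕ) : ZMod p)) * b l = 0 then
    ((h.choose.1 : ℕ) : ZMod q) - ((h.choose.2 : ℕ) : ZMod q) else 0

lemma bb_eq (p q K N B : ℕ) [NeZero p] (hB : 2 * B < p) (b : Fin K → ZMod p)
    (i j : Fin K → Fin (N + 1)) (k k' : Fin (B + 1))
    (h : (((k : ℕ) : ZMod p) - ((k' : ℕ) : ZMod p)) +
      ∑ l, (((i l : ℕ) : ZMod p) - ((j l : ℕ) : ZMod p)) * b l = 0) :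
    bb p q K N B b i j = ((k : ℕ) : ZMod q) - ((k' : ℕ) : ZMod q) := by
  have hex : ∃ kk : Fin (B + 1) × Fin (B + 1), (((kk.1 : ℕ) : ZMod p) - ((kk.2 : ℕ) : ZMod p)) +
      ∑ l, (((i l : ℕ) : ZMod p) - ((j l : ℕ) : ZMod p)) * b l = 0 := ⟨(k, k'), h⟩
  unfold bb
  rw [dif_pos hex]
  have h2 := hex.choose_spec
  set kk := hex.choose with hkk
  have h3 : (((kk.1 : ℕ) + (k' : ℕ) : ℕ) : ZMod p) = (((k : ℕ) + (kk.2 : ℕ) : ℕ) : ZMod p) := by
    push_cast
    linear_combination h2 - h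
  have l1 := kk.1.2
  have l2 := kk.2.2
  have l3 := k.2
  have l4 := k'.2
  rw [ZMod.natCast_eq_natCast_iff', Nat.mod_eq_of_lt (by omega), Nat.mod_eq_of_lt (by omega)] at h3
  have h4 : (((kk.1 : ℕ) + (k' : ℕ) : ℕ) : ZMod q) = (((k : ℕ) + (kk.2 : ℕ) : ℕ) : ZMod q) := by
    rw [h3]
  push_cast at h4
  linear_combination h4

lemma re_neg_std (q : ℕ) [NeZero q] (y : ZMod q) :
    (ZMod.stdAddChar (-y) : ℂ).re = (ZMod.stdAddChar y : ℂ).re := by
  rw [← conj_std, Complex.conj_re]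

lemma inner_ge {p q : ℕ} [Fact p.Prime] [NeZero q] (hp : 2 < p) (K N B : ℕ) (hB : 2 * B < p)
    (a b : Fin K → ZMod p) (s : ZMod q)
    (hs : ∀ i j, distInt q (bb p q K N B b i j * s) ≤ 1 / 4) (i j : Idx K N B) :
    (if i = j then (p : ℝ) else 0) - Real.sqrt p ≤
      (∑ x, phi K N B a b s i x * (starRingEnd ℂ) (phi K N B a b s j x)).re := by
  rw [inner_eq]
  set α := ∑ l, (((i.2 l : ℕ) : ZMod p) - ((j.2 l : ℕ) : ZMod p)) * a l with hα
  set β := (((i.1 : ℕ) : ZMod p) - ((j.1 : ℕ) : ZMod p)) +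
            ∑ l, (((i.2 l : ℕ) : ZMod p) - ((j.2 l : ℕ) : ZMod p)) * b l with hβ
  have hsq : 0 ≤ Real.sqrt p := Real.sqrt_nonneg _
  by_cases h0 : α = 0
  · rw [h0]
    have e : ∀ x : ZMod p, (0 : ZMod p) * x ^ 2 + β * x = x * β := by intro x; ring
    simp only [e]
    rw [AddChar.sum_mulShift _ (ZMod.isPrimitive_stdAddChar p)]
    by_cases h1 : β = 0
    · rw [if_pos h1, ZMod.card]
      have h2 := bb_eq p q K N B hB b i.2 j.2 i.1 j.1 h1
      have h3 := hs i.2 j.2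
      rw [h2] at h3
      have h4 := re_std_nonneg q _ h3
      rw [← re_neg_std] at h4
      by_cases hij : i = j
      · subst hij
        simp
      · rw [if_neg hij]
        rw [Complex.mul_re, Complex.natCast_re, Complex.natCast_im, mul_zero, sub_zero]
        have h5 : 0 ≤ (ZMod.stdAddChar (-((((i.1 : ℕ) : ZMod q) - ((j.1 : ℕ) : ZMod q)) * s)) : ℂ).re *
            (p : ℝ) := mul_nonneg h4 (Nat.cast_nonneg _)
        linarith
    · have hij : i ≠ j := by
        rintro rfl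
        apply h1
        rw [hβ]
        simp
      rw [if_neg hij, if_neg h1]
      simp
  · have hij : i ≠ j := by
      rintro rfl
      apply h0
      rw [hα]
      simp
    rw [if_neg hij]
    have h2 := gauss_sq p hp α β h0
    have h3 : ‖(ZMod.stdAddChar (-((((i.1 : ℕ) : ZMod q) - ((j.1 : ℕ) : ZMod q)) * s)) : ℂ) *
        ∑ x : ZMod p, ZMod.stdAddChar (α * x ^ 2 + β * x)‖ = Real.sqrt p := by
      rw [norm_mul, norm_std, one_mul, ← h2, Real.sqrt_sq (norm_nonneg _)]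
    have h4 := Complex.abs_re_le_norm ((ZMod.stdAddChar (-((((i.1 : ℕ) : ZMod q) - ((j.1 : ℕ) : ZMod q)) * s)) : ℂ) *
        ∑ x : ZMod p, ZMod.stdAddChar (α * x ^ 2 + β * x))
    rw [h3] at h4
    have h5 := (abs_le.mp h4).1
    linarith

/-- sum of the squares of binomial coefficients -/
def A (n : ℕ) : ℝ := ∑ k : Fin (n + 1), (n.choose k : ℝ) ^ 2

lemma sum_choose (n : ℕ) : ∑ k : Fin (n + 1), (n.choose k : ℝ) = 2 ^ n := by
  have h := Nat.sum_range_choose n
  rw [Finset.sum_range] at h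
  exact_mod_cast h

lemma A_ge (n : ℕ) : (4 : ℝ) ^ n / (n + 1) ≤ A n := by
  have h := sq_sum_le_card_mul_sum_sq (s := (Finset.univ : Finset (Fin (n + 1))))
    (f := fun k => (n.choose k : ℝ))
  rw [sum_choose] at h
  simp only [Finset.card_univ, Fintype.card_fin] at h
  rw [div_le_iff₀ (by positivity)]
  unfold A
  have e : (4 : ℝ) ^ n = (2 ^ n) ^ 2 := by rw [← pow_mul, mul_comm, pow_mul]; norm_num
  rw [e]
  push_cast at h
  linarith

lemma A_pos (n : ℕ) : 0 < A n := lt_of_lt_of_le (by positivity) (A_ge n)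

lemma sum_coef (K N B : ℕ) : ∑ i, coef K N B i = 2 ^ B * (2 ^ N) ^ K := by
  rw [Fintype.sum_prod_type]
  unfold coef
  simp only
  rw [← Finset.sum_mul_sum, sum_choose]
  congr 1
  have h := Finset.prod_univ_sum (fun _ : Fin K => (Finset.univ : Finset (Fin (N + 1))))
    (fun _ k => (N.choose k : ℝ))
  rw [Fintype.piFinset_univ] at h
  rw [← h]
  simp [sum_choose]

lemma sum_coef_sq (K N B : ℕ) : ∑ i, coef K N B i ^ 2 = A B * A N ^ K := by
  rw [Fintype.sum_prod_type]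
  unfold coef
  simp only [mul_pow, ← Finset.prod_pow]
  rw [← Finset.sum_mul_sum]
  unfold A
  congr 1
  have h := Finset.prod_univ_sum (fun _ : Fin K => (Finset.univ : Finset (Fin (N + 1))))
    (fun _ k => (N.choose k : ℝ) ^ 2)
  rw [Fintype.piFinset_univ] at h
  rw [← h]
  simp

lemma coef_nonneg (K N B : ℕ) (i : Idx K N B) : 0 ≤ coef K N B i := by
  unfold coef
  positivity

lemma lower {p q : ℕ} [Fact p.Prime] [NeZero q] (hp : 2 < p) (K N B : ℕ) (hB : 2 * B < p)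
    (a b : Fin K → ZMod p) (s : ZMod q)
    (hs : ∀ i j, distInt q (bb p q K N B b i j * s) ≤ 1 / 4) :
    p * (A B * A N ^ K) - Real.sqrt p * (2 ^ B * (2 ^ N) ^ K) ^ 2 ≤
      ∑ x : ZMod p, ‖(1 + (ZMod.stdAddChar (-s) : ℂ) * ZMod.stdAddChar x) ^ B *
        ∏ j, (1 + (ZMod.stdAddChar (a j * x ^ 2 + b j * x) : ℂ)) ^ N‖ ^ 2 := by
  have h := sum_norm_sq_ge (coef K N B) (coef_nonneg K N B) (phi K N B a b s) p (Real.sqrt p)
    (inner_ge hp K N B hB a b s hs)
  rw [sum_coef_sq, sum_coef] at h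
  refine h.trans (le_of_eq ?_)
  apply Finset.sum_congr rfl
  intro x _
  rw [expand]

lemma weight_sum {p q : ℕ} [Fact p.Prime] [NeZero q] (B : ℕ) (hB : 2 * B < p) (s : ZMod q) :
    ∑ x : ZMod p, ‖(1 + (ZMod.stdAddChar (-s) : ℂ) * ZMod.stdAddChar x) ^ B‖ ^ 2 = p * A B := by
  have h := sum_norm_sq_eq (fun k : Fin (B + 1) => (B.choose k : ℝ))
    (fun k (x : ZMod p) => ((ZMod.stdAddChar (-s) : ℂ) * ZMod.stdAddChar x) ^ (k : ℕ)) p (by
      intro i j
      have e : ∀ x : ZMod p, ((ZMod.stdAddChar (-s) : ℂ) * ZMod.stdAddChar x) ^ (i : ℕ) *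
          (starRingEnd ℂ) (((ZMod.stdAddChar (-s) : ℂ) * ZMod.stdAddChar x) ^ (j : ℕ)) =
          ZMod.stdAddChar (-((((i : ℕ) : ZMod q) - ((j : ℕ) : ZMod q)) * s)) *
            ZMod.stdAddChar (x * (((i : ℕ) : ZMod p) - ((j : ℕ) : ZMod p))) := by
        intro x
        rw [mul_pow, mul_pow, ← map_mul_std, ← map_mul_std, ← map_mul_std, ← map_mul_std,
          RingHom.map_mul, conj_std, conj_std]
        have e : ∀ A B C D : ℂ, A * B * (C * D) = (A * C) * (B * D) := by intros; ring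
        rw [e, ← AddChar.map_add_eq_mul, ← AddChar.map_add_eq_mul]
        congr 1
        · congr 1; ring
        · congr 1; ring
      simp only [e]
      rw [← Finset.mul_sum, AddChar.sum_mulShift _ (ZMod.isPrimitive_stdAddChar p)]
      by_cases hij : i = j
      · subst hij
        simp [ZMod.card]
      · have h1 : ((i : ℕ) : ZMod p) - ((j : ℕ) : ZMod p) ≠ 0 := by
          intro h2
          rw [sub_eq_zero, ZMod.natCast_eq_natCast_iff'] at h2
          have l1 := i.2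
          have l2 := j.2
          have : NeZero p := ⟨(Fact.out : p.Prime).ne_zero⟩
          rw [Nat.mod_eq_of_lt (by omega), Nat.mod_eq_of_lt (by omega)] at h2
          exact hij (Fin.ext h2)
        rw [if_neg h1, if_neg hij]
        simp)
  unfold A
  rw [← h]
  apply Finset.sum_congr rfl
  intro x _
  rw [one_add_pow]

end

end Pool.Agent.Lib.MP_2bc700_co.Thick
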