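import Mathlib
import Pool.Agent.Lib.MP_2bc700_co.Thick2

/-!
# Quadratic covers of a thickened set give linear covers of the set
-/

set_option autoImplicit false

namespace Pool.Agent.Lib.MP_2bc700_co.Thick

open Finset SimpleGraph

noncomputable section

/-- `x` in `ℤ/p` is close to `s` in `ℤ/q` after scaling -/
def Near (p q : ℕ) (s : ZMod q) (x : ZMod p) : Prop :=
  ∃ u n : ℤ, (u : ZMod p) = x ∧ (n : ZMod q) = s ∧ |(q : ℝ) * u / p - n| < 1 / 8

/-- thickening of a set in `ℤ/q` to a set in `ℤ/p` -/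
def thick (p q : ℕ) (S : Set (ZMod q)) : Set (ZMod p) := {x | ∃ s ∈ S, Near p q s x}

lemma far {p q : ℕ} [NeZero p] [NeZero q] (s : ZMod q) (x : ZMod p) (h : ¬ Near p q s x) :
    ‖1 + (ZMod.stdAddChar (-s) : ℂ) * ZMod.stdAddChar x‖ ^ 2 ≤ 4 * (1 - 1 / (16 * (q : ℝ) ^ 2)) := by
  have hp : (0 : ℝ) < p := by exact_mod_cast Nat.pos_of_ne_zero (NeZero.ne p)
  have hq : (0 : ℝ) < q := by exact_mod_cast Nat.pos_of_ne_zero (NeZero.ne q)
  set t : ℝ := (x.val : ℝ) / p - (s.val : ℝ) / q with ht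
  have e : (ZMod.stdAddChar (-s) : ℂ) * ZMod.stdAddChar x =
      Complex.exp (Complex.I * ((2 * Real.pi * t : ℝ) : ℂ)) := by
    rw [AddChar.map_neg_eq_inv, stdAddChar_eq, stdAddChar_eq, ← Complex.exp_neg, ← Complex.exp_add]
    congr 1
    rw [ht]
    push_cast
    ring
  have hd : 1 / (8 * (q : ℝ)) ≤ |t - round t| := by
    by_contra hlt
    push Not at hlt
    apply h
    refine ⟨(x.val : ℤ), (s.val : ℤ) + q * round t, ?_, ?_, ?_⟩
    · rw [Int.cast_natCast, ZMod.natCast_zmod_val]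
    · push_cast
      rw [ZMod.natCast_zmod_val, ZMod.natCast_self, zero_mul, add_zero]
    · push_cast
      have e0 : (q : ℝ) * (x.val : ℝ) / p = q * t + s.val := by
        rw [ht]; field_simp; ring
      have e2 : (q : ℝ) * (x.val : ℝ) / p - ((s.val : ℝ) + q * (round t : ℝ)) = q * (t - round t) := by
        rw [e0]; ring
      rw [e2, abs_mul, abs_of_pos hq]
      have h3 := mul_lt_mul_of_pos_left hlt hq
      have e3 : (q : ℝ) * (1 / (8 * q)) = 1 / 8 := by field_simp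
      linarith
  have hnorm : ‖(ZMod.stdAddChar (-s) : ℂ) * ZMod.stdAddChar x‖ = 1 := by
    rw [norm_mul, norm_std, norm_std, one_mul]
  have h1 := norm_add_one_sq_le _ hnorm (1 / (8 * (q : ℝ))) (by positivity) (by
    rw [e]
    have h2 := norm_sub_one_ge t (round t) (abs_sub_round t)
    linarith)
  have e4 : 4 * (1 - 4 * (1 / (8 * (q : ℝ))) ^ 2) = 4 * (1 - 1 / (16 * (q : ℝ) ^ 2)) := by
    field_simp
    ring
  rw [e4] at h1
  exact h1

lemma prod_le {K : ℕ} (g : Fin K → ℝ) (h0 : ∀ j, 0 ≤ g j) (h4 : ∀ j, g j ≤ 4) :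
    ∏ j, g j ≤ 4 ^ K := by
  have h := Finset.prod_le_prod (s := (Finset.univ : Finset (Fin K))) (fun j _ => h0 j)
    (fun j _ => h4 j)
  simpa using h

lemma prod_le' {K : ℕ} (g : Fin K → ℝ) (h0 : ∀ j, 0 ≤ g j) (h4 : ∀ j, g j ≤ 4) (θ : ℝ)
    (j₀ : Fin K) (hj : g j₀ ≤ 4 * θ) : ∏ j, g j ≤ 4 ^ K * θ := by
  have hθ : 0 ≤ θ := by
    have := h0 j₀
    linarith
  have h : ∏ j, g j ≤ ∏ j, (if j = j₀ then 4 * θ else 4) := by
    apply Finset.prod_le_prod (fun j _ => h0 j)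
    intro j _
    by_cases hjj : j = j₀
    · rw [if_pos hjj, hjj]; exact hj
    · rw [if_neg hjj]; exact h4 j
  refine h.trans (le_of_eq ?_)
  have e : ∀ j : Fin K, (if j = j₀ then 4 * θ else 4) = 4 * (if j = j₀ then θ else 1) := by
    intro j
    split_ifs <;> ring
  simp only [e]
  rw [Finset.prod_mul_distrib]
  simp

lemma upper {p q : ℕ} [Fact p.Prime] [NeZero q] (K N B : ℕ) (hB : 2 * B < p)
    (a b : Fin K → ZMod p) (s : ZMod q) (r : ℝ) (hr : 0 ≤ r) (hr2 : r ≤ 1 / 2)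
    (hcov : ∀ x, Near p q s x → ∃ j, r ≤ distInt p (a j * x ^ 2 + b j * x)) :
    ∑ x : ZMod p, ‖(1 + (ZMod.stdAddChar (-s) : ℂ) * ZMod.stdAddChar x) ^ B *
        ∏ j, (1 + (ZMod.stdAddChar (a j * x ^ 2 + b j * x) : ℂ)) ^ N‖ ^ 2 ≤
      (4 ^ K * (1 - 4 * r ^ 2)) ^ N * (p * A B) +
        p * ((4 * (1 - 1 / (16 * (q : ℝ) ^ 2))) ^ B * (4 ^ K) ^ N) := by
  have hθ : 0 ≤ 1 - 4 * r ^ 2 := by nlinarith
  have hκ : 0 ≤ 1 - 1 / (16 * (q : ℝ) ^ 2) := by
    have hq : (1 : ℝ) ≤ q := by exact_mod_cast Nat.pos_of_ne_zero (NeZero.ne q)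
    rw [sub_nonneg, div_le_one (by positivity)]
    nlinarith
  have key : ∀ x : ZMod p, ‖(1 + (ZMod.stdAddChar (-s) : ℂ) * ZMod.stdAddChar x) ^ B *
        ∏ j, (1 + (ZMod.stdAddChar (a j * x ^ 2 + b j * x) : ℂ)) ^ N‖ ^ 2 ≤
      (4 ^ K * (1 - 4 * r ^ 2)) ^ N * ‖(1 + (ZMod.stdAddChar (-s) : ℂ) * ZMod.stdAddChar x) ^ B‖ ^ 2 +
        (4 * (1 - 1 / (16 * (q : ℝ) ^ 2))) ^ B * (4 ^ K) ^ N := by
    intro x
    set g : Fin K → ℝ := fun j => ‖1 + (ZMod.stdAddChar (a j * x ^ 2 + b j * x) : ℂ)‖ ^ 2 with hg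
    have hg0 : ∀ j, 0 ≤ g j := fun j => by positivity
    have hg4 : ∀ j, g j ≤ 4 := fun j => norm_one_add_std_le_four p _
    have e1 : ‖(1 + (ZMod.stdAddChar (-s) : ℂ) * ZMod.stdAddChar x) ^ B *
        ∏ j, (1 + (ZMod.stdAddChar (a j * x ^ 2 + b j * x) : ℂ)) ^ N‖ ^ 2 =
        ‖(1 + (ZMod.stdAddChar (-s) : ℂ) * ZMod.stdAddChar x) ^ B‖ ^ 2 * (∏ j, g j) ^ N := by
      rw [norm_mul, mul_pow, norm_prod]
      congr 1
      simp only [norm_pow, hg]
      rw [← Finset.prod_pow, ← Finset.prod_pow]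
      apply Finset.prod_congr rfl
      intro j _
      rw [← pow_mul, ← pow_mul, mul_comm N 2]
    rw [e1]
    have hw : 0 ≤ ‖(1 + (ZMod.stdAddChar (-s) : ℂ) * ZMod.stdAddChar x) ^ B‖ ^ 2 := by positivity
    have hprod0 : 0 ≤ ∏ j, g j := Finset.prod_nonneg (fun j _ => hg0 j)
    by_cases hn : Near p q s x
    · obtain ⟨j₀, hj₀⟩ := hcov x hn
      have h1 : g j₀ ≤ 4 * (1 - 4 * r ^ 2) := norm_one_add_std_le p _ r hr hj₀
      have h2 := prod_le' g hg0 hg4 _ j₀ h1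
      have h3 : (∏ j, g j) ^ N ≤ (4 ^ K * (1 - 4 * r ^ 2)) ^ N := pow_le_pow_left₀ hprod0 h2 N
      have h4 := mul_le_mul_of_nonneg_left h3 hw
      have h5 : 0 ≤ (4 * (1 - 1 / (16 * (q : ℝ) ^ 2))) ^ B * (4 ^ K) ^ N := by positivity
      linarith
    · have h1 := far s x hn
      have h2 : ‖(1 + (ZMod.stdAddChar (-s) : ℂ) * ZMod.stdAddChar x) ^ B‖ ^ 2 ≤
          (4 * (1 - 1 / (16 * (q : ℝ) ^ 2))) ^ B := by
        rw [norm_pow, ← pow_mul, mul_comm B 2, pow_mul]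
        exact pow_le_pow_left₀ (by positivity) h1 B
      have h3 : (∏ j, g j) ^ N ≤ (4 ^ K) ^ N := pow_le_pow_left₀ hprod0 (prod_le g hg0 hg4) N
      have h4 := mul_le_mul h2 h3 (by positivity) (by positivity)
      have h5 : 0 ≤ (4 ^ K * (1 - 4 * r ^ 2)) ^ N *
          ‖(1 + (ZMod.stdAddChar (-s) : ℂ) * ZMod.stdAddChar x) ^ B‖ ^ 2 := by positivity
      linarith
  refine (Finset.sum_le_sum (fun x _ => key x)).trans (le_of_eq ?_)
  rw [Finset.sum_add_distrib, ← Finset.mul_sum, weight_sum B hB s, Finset.sum_const, Finset.card_univ,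
    ZMod.card, nsmul_eq_mul]

lemma exists_N (K : ℕ) (θ : ℝ) (h0 : 0 ≤ θ) (h1 : θ < 1) :
    ∃ N : ℕ, 2 * ((N : ℝ) + 1) ^ K * θ ^ N ≤ 1 := by
  have h := tendsto_pow_const_mul_const_pow_of_abs_lt_one K (r := θ) (by rwa [abs_of_nonneg h0])
  by_cases hθ : θ = 0
  · refine ⟨1, ?_⟩
    rw [hθ]
    norm_num
  have hθ' : 0 < θ := lt_of_le_of_ne h0 (Ne.symm hθ)
  have h2 := (tendsto_order.1 h).2 (θ / 2) (by positivity)
  obtain ⟨n, hn1, hn2⟩ := (h2.and (Filter.eventually_ge_atTop 1)).exists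
  refine ⟨n - 1, ?_⟩
  have e : ((n - 1 : ℕ) : ℝ) + 1 = n := by
    rw [Nat.cast_sub hn2]; push_cast; ring
  rw [e]
  have e2 : θ ^ n = θ ^ (n - 1) * θ := by
    rw [← pow_succ]; congr 1; omega
  rw [e2] at hn1
  have h3 : (n : ℝ) ^ K * θ ^ (n - 1) * θ < 1 / 2 * θ := by linarith
  have h4 := lt_of_mul_lt_mul_right h3 hθ'.le
  linarith

lemma exists_B (D κ : ℝ) (hD : 0 < D) (h0 : 0 ≤ κ) (h1 : κ < 1) :
    ∃ B : ℕ, 4 * ((B : ℝ) + 1) * D * κ ^ B ≤ 1 := by
  by_cases hκ : κ = 0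
  · refine ⟨1, ?_⟩
    rw [hκ]
    norm_num
  have hκ' : 0 < κ := lt_of_le_of_ne h0 (Ne.symm hκ)
  have h := tendsto_self_mul_const_pow_of_abs_lt_one (r := κ) (by rwa [abs_of_nonneg h0])
  have h2 := (tendsto_order.1 h).2 (κ / (4 * D)) (by positivity)
  obtain ⟨n, hn1, hn2⟩ := (h2.and (Filter.eventually_ge_atTop 1)).exists
  refine ⟨n - 1, ?_⟩
  have e : ((n - 1 : ℕ) : ℝ) + 1 = n := by
    rw [Nat.cast_sub hn2]; push_cast; ring
  rw [e]
  have e2 : κ ^ n = κ ^ (n - 1) * κ := by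
    rw [← pow_succ]; congr 1; omega
  rw [e2, lt_div_iff₀ (by positivity)] at hn1
  have h3 : (4 * (n : ℝ) * D * κ ^ (n - 1)) * κ < 1 * κ := by nlinarith
  exact (lt_of_mul_lt_mul_right h3 hκ'.le).le

lemma arith {p F M D β AB AN T k : ℝ} (hp : 0 < p) (hF : 0 < F) (hM : 0 < M) (hD : 0 < D)
    (hβ : 0 < β) (hAB : F / β ≤ AB) (hAN : M / D ≤ AN) (hT : 2 * D * T ≤ 1) (hk : 4 * β * D * k ≤ 1)
    (h : p * (AB * AN) - Real.sqrt p * (F * M) ≤ M * T * (p * AB) + p * (F * k * M)) :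
    p ≤ 16 * (β * D) ^ 2 := by
  have hABpos : 0 < AB := lt_of_lt_of_le (by positivity) hAB
  have hτ : M * T ≤ AN / 2 := by
    have h1 : 2 * (M * T) ≤ M / D := by
      rw [le_div_iff₀ hD]
      have h2 := mul_le_mul_of_nonneg_left hT hM.le
      rw [mul_one] at h2
      calc 2 * (M * T) * D = M * (2 * D * T) := by ring
        _ ≤ M := h2
    linarith
  have h5 : p * (AB * AN) / 2 ≤ Real.sqrt p * (F * M) + p * (F * k * M) := by
    have h6 : M * T * (p * AB) ≤ AN / 2 * (p * AB) :=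
      mul_le_mul_of_nonneg_right hτ (by positivity)
    have e : AN / 2 * (p * AB) = p * (AB * AN) / 2 := by ring
    rw [e] at h6
    linarith
  have h7 : F * M / (β * D) ≤ AB * AN := by
    have h8 := mul_le_mul hAB hAN (by positivity) hABpos.le
    have e4 : F / β * (M / D) = F * M / (β * D) := by
      field_simp
    rw [← e4]
    exact h8
  have h9 : p * (F * M / (β * D)) / 2 ≤ Real.sqrt p * (F * M) + p * (F * k * M) := by
    refine le_trans ?_ h5
    have h10 := mul_le_mul_of_nonneg_left h7 hp.le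
    linarith
  have hG : 0 < β * D := by positivity
  have hk' : 4 * (β * D) * k ≤ 1 := by linarith
  have hFM : 0 < F * M := by positivity
  generalize β * D = G at h9 hG hk' ⊢
  have h11 : p / (2 * G) ≤ Real.sqrt p + p * k := by
    have e5 : p * (F * M / G) / 2 = (p / (2 * G)) * (F * M) := by
      field_simp
    have e6 : Real.sqrt p * (F * M) + p * (F * k * M) = (Real.sqrt p + p * k) * (F * M) := by
      ring
    rw [e5, e6] at h9
    exact le_of_mul_le_mul_right h9 hFM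
  have h12 : k ≤ 1 / (4 * G) := by
    rw [le_div_iff₀ (by positivity)]
    linarith
  have h13 : p / (4 * G) ≤ Real.sqrt p := by
    have h14 := mul_le_mul_of_nonneg_left h12 hp.le
    have e7 : p / (2 * G) = p / (4 * G) + p * (1 / (4 * G)) := by
      field_simp
      ring
    linarith
  rw [div_le_iff₀ (by positivity)] at h13
  have h16 : Real.sqrt p * Real.sqrt p = p := Real.mul_self_sqrt hp.le
  have hsp : 0 < Real.sqrt p := Real.sqrt_pos.mpr hp
  have h15 : Real.sqrt p ≤ 4 * G := by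
    have h18 : Real.sqrt p * Real.sqrt p ≤ Real.sqrt p * (4 * G) := by rw [h16]; exact h13
    exact le_of_mul_le_mul_left h18 hsp
  have h19 := mul_le_mul h15 h15 hsp.le (by positivity)
  rw [h16] at h19
  linarith [h19, sq_nonneg G, (by ring : 4 * G * (4 * G) = 16 * G ^ 2)]

/-- main lemma: a quadratic cover of the points near `s` forces one of boundedly many characters to be
large at `s`. -/
lemma main (K : ℕ) (r : ℝ) (hr : 0 < r) (hr2 : r ≤ 1 / 2) :
    ∃ N : ℕ, ∀ q : ℕ, 0 < q → ∃ B P₀ : ℕ, ∀ (p : ℕ) [Fact p.Prime], P₀ < p →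
      ∀ (a b : Fin K → ZMod p) (s : ZMod q),
      (∀ x, Near p q s x → ∃ j, r ≤ distInt p (a j * x ^ 2 + b j * x)) →
      ∃ i j : Fin K → Fin (N + 1), 1 / 4 < distInt q (bb p q K N B b i j * s) := by
  obtain ⟨N, hN⟩ := exists_N K (1 - 4 * r ^ 2) (by nlinarith) (by nlinarith)
  refine ⟨N, fun q hq0 => ?_⟩
  have : NeZero q := ⟨by omega⟩
  have hq : (1 : ℝ) ≤ q := by exact_mod_cast hq0
  set D : ℝ := ((N : ℝ) + 1) ^ K with hD
  have hDpos : 0 < D := by positivity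
  set κ : ℝ := 1 - 1 / (16 * (q : ℝ) ^ 2) with hκ
  have hκ0 : 0 ≤ κ := by
    rw [hκ, sub_nonneg, div_le_one (by positivity)]
    nlinarith
  have hκ1 : κ < 1 := by
    rw [hκ]
    have : 0 < 1 / (16 * (q : ℝ) ^ 2) := by positivity
    linarith
  obtain ⟨B, hB⟩ := exists_B D κ hDpos hκ0 hκ1
  obtain ⟨P₁, hP₁⟩ := exists_nat_gt (16 * (((B : ℝ) + 1) * D) ^ 2)
  refine ⟨B, max (max 2 (2 * B)) P₁, ?_⟩
  intro p hpf hp a b s hcov
  have hp2 : 2 < p := lt_of_le_of_lt (le_trans (le_max_left _ _) (le_max_left _ _)) hp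
  have hpB : 2 * B < p := lt_of_le_of_lt (le_trans (le_max_right _ _) (le_max_left _ _)) hp
  have hpP : (P₁ : ℝ) < p := by exact_mod_cast lt_of_le_of_lt (le_max_right _ _) hp
  by_contra hcon
  push Not at hcon
  have hl := lower hp2 K N B hpB a b s hcon
  have hu := upper K N B hpB a b s r hr.le hr2 hcov
  have h := hl.trans hu
  rw [← hκ] at h
  have e1 : ((2 : ℝ) ^ B * (2 ^ N) ^ K) ^ 2 = 4 ^ B * 4 ^ (N * K) := by
    rw [mul_pow, ← pow_mul, ← pow_mul, ← pow_mul]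
    have : (4 : ℝ) = 2 ^ 2 := by norm_num
    rw [this, ← pow_mul, ← pow_mul]
    congr 1
    · congr 1; ring
    · congr 1; ring
  have e2 : (4 ^ K * (1 - 4 * r ^ 2)) ^ N = 4 ^ (N * K) * (1 - 4 * r ^ 2) ^ N := by
    rw [mul_pow, ← pow_mul, mul_comm K N]
  have e3 : (4 * κ) ^ B * ((4 : ℝ) ^ K) ^ N = 4 ^ B * κ ^ B * 4 ^ (N * K) := by
    rw [mul_pow, ← pow_mul, mul_comm K N]
  rw [e1, e2, e3] at h
  have hAN : (4 : ℝ) ^ (N * K) / D ≤ A N ^ K := by
    have h1 := pow_le_pow_left₀ (by positivity) (A_ge N) K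
    rw [div_pow, ← pow_mul] at h1
    rw [hD]
    exact h1
  have hppos : (0 : ℝ) < p := by
    have : (0 : ℝ) ≤ (P₁ : ℝ) := Nat.cast_nonneg _
    linarith
  have hfin := arith hppos (by positivity : (0 : ℝ) < 4 ^ B) (by positivity : (0 : ℝ) < 4 ^ (N * K))
    hDpos (by positivity : (0 : ℝ) < (B : ℝ) + 1) (A_ge B) hAN hN hB h
  linarith

/-! ### colouring the thickened graph -/

lemma thick_symm (p q : ℕ) (S : Set (ZMod q)) (hS : ∀ s ∈ S, -s ∈ S) :
    ∀ x ∈ thick p q S, -x ∈ thick p q S := by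
  rintro x ⟨s, hs, u, n, hu, hn, h⟩
  refine ⟨-s, hS s hs, -u, -n, ?_, ?_, ?_⟩
  · push_cast; rw [hu]
  · push_cast; rw [hn]
  · push_cast
    have e : (q : ℝ) * -(u : ℝ) / p - -(n : ℝ) = -((q : ℝ) * u / p - n) := by ring
    rw [e, abs_neg]
    exact h

lemma int_eq_of_abs_lt (m n : ℤ) (h : |(m : ℝ) - n| < 1) : m = n := by
  have h1 : |m - n| < 1 := by exact_mod_cast h
  rw [Int.abs_lt_one_iff] at h1
  omega

lemma zero_not_mem_thick (p q : ℕ) [NeZero p] (S : Set (ZMod q)) (h0 : (0 : ZMod q) ∉ S) :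
    (0 : ZMod p) ∉ thick p q S := by
  rintro ⟨s, hs, u, n, hu, hn, h⟩
  rw [ZMod.intCast_zmod_eq_zero_iff_dvd] at hu
  obtain ⟨l, rfl⟩ := hu
  have hp : (0 : ℝ) < p := by exact_mod_cast Nat.pos_of_ne_zero (NeZero.ne p)
  have h1 : (q : ℤ) * l = n := by
    apply int_eq_of_abs_lt
    push_cast at h ⊢
    have e : (q : ℝ) * (p * l) / p - n = q * l - n := by field_simp
    rw [e] at h
    linarith
  apply h0
  rw [← h1] at hn
  push_cast at hn
  rw [ZMod.natCast_self, zero_mul] at hn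
  rwa [hn]

lemma circ_adj {n : ℕ} (S : Set (ZMod n)) (hS : ∀ s ∈ S, -s ∈ S) (x y : ZMod n)
    (h : (circulantGraph S).Adj x y) : x - y ∈ S := by
  rw [circulantGraph_adj] at h
  obtain ⟨_, h | h⟩ := h
  · exact h
  · have := hS _ h
    rwa [neg_sub] at this

lemma circ_ne {n C : ℕ} (S : Set (ZMod n)) (h0 : (0 : ZMod n) ∉ S)
    (c : (circulantGraph S).Coloring (Fin C)) (x y : ZMod n) (h : x - y ∈ S) : c x ≠ c y := by
  apply c.valid
  rw [circulantGraph_adj]
  refine ⟨?_, Or.inl h⟩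
  rintro rfl
  rw [sub_self] at h
  exact h0 h

lemma thick_colorable (p q C : ℕ) [NeZero p] (S : Set (ZMod q)) (hS : ∀ s ∈ S, -s ∈ S)
    (h0 : (0 : ZMod q) ∉ S) (hc : (circulantGraph S).Colorable C) :
    (circulantGraph (thick p q S)).Colorable (2 * C) := by
  obtain ⟨c⟩ := hc
  have hp : (0 : ℝ) < p := by exact_mod_cast Nat.pos_of_ne_zero (NeZero.ne p)
  classical
  set y : ZMod p → ℝ := fun x => (q : ℝ) * x.val / p with hy
  set col : ZMod p → Bool × Fin C := fun x =>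
    if |y x - round (y x)| ≤ 1 / 4 then (false, c ((round (y x) : ℤ) : ZMod q))
    else (true, c ((⌊y x⌋ : ℤ) : ZMod q)) with hcol
  have hvalid : ∀ x x' : ZMod p, (circulantGraph (thick p q S)).Adj x x' → col x ≠ col x' := by
    intro x x' hadj heq
    obtain ⟨s, hs, u, n, hu, hn, h⟩ := circ_adj _ (thick_symm p q S hS) x x' hadj
    -- integer relation
    have h1 : ((((x.val : ℤ) - (x'.val : ℤ) - u : ℤ)) : ZMod p) = 0 := by
      push_cast
      rw [ZMod.natCast_zmod_val, ZMod.natCast_zmod_val, hu]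
      ring
    rw [ZMod.intCast_zmod_eq_zero_iff_dvd] at h1
    obtain ⟨l, hl⟩ := h1
    have hl' : (x.val : ℝ) - x'.val - u = p * l := by exact_mod_cast hl
    have h2 : y x - y x' = ((q : ℝ) * u / p - n) + ((n + q * l : ℤ) : ℝ) := by
      simp only [hy]
      push_cast
      have e : (x.val : ℝ) = x'.val + u + p * l := by linarith
      rw [e]
      field_simp
      ring
    set n' : ℤ := n + q * l with hn'
    have hn's : ((n' : ℤ) : ZMod q) = s := by
      rw [hn']; push_cast; rw [ZMod.natCast_self, zero_mul, add_zero, hn]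
    set δ : ℝ := (q : ℝ) * u / p - n with hδ
    have hδ2 := abs_lt.mp h
    have fin : ∀ m m' : ℤ, m = m' + n' → c ((m : ℤ) : ZMod q) ≠ c ((m' : ℤ) : ZMod q) := by
      intro m m' hm
      apply circ_ne S h0
      rw [hm]
      push_cast
      rw [add_sub_cancel_left, hn's]
      exact hs
    by_cases hx : |y x - round (y x)| ≤ 1 / 4
    · by_cases hx' : |y x' - round (y x')| ≤ 1 / 4
      · simp only [hcol, if_pos hx, if_pos hx'] at heq
        have h3 := (Prod.mk.injEq _ _ _ _).mp heq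
        refine fin _ _ ?_ h3.2
        apply int_eq_of_abs_lt
        have a1 := abs_le.mp hx
        have a2 := abs_le.mp hx'
        push_cast
        rw [abs_lt]
        constructor <;> linarith [a1.1, a1.2, a2.1, a2.2, hδ2.1, hδ2.2]
      · simp only [hcol, if_pos hx, if_neg hx'] at heq
        have h3 := (Prod.mk.injEq _ _ _ _).mp heq
        exact absurd h3.1 (by simp)
    · by_cases hx' : |y x' - round (y x')| ≤ 1 / 4
      · simp only [hcol, if_neg hx, if_pos hx'] at heq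
        have h3 := (Prod.mk.injEq _ _ _ _).mp heq
        exact absurd h3.1 (by simp)
      · simp only [hcol, if_neg hx, if_neg hx'] at heq
        have h3 := (Prod.mk.injEq _ _ _ _).mp heq
        have hfr : ∀ z : ℝ, ¬ |z - round z| ≤ 1 / 4 → 1 / 4 < z - ⌊z⌋ ∧ z - ⌊z⌋ < 3 / 4 := by
          intro z hz
          push Not at hz
          have g1 := round_le z ⌊z⌋
          have g2 := round_le z (⌊z⌋ + 1)
          have g3 := Int.floor_le z
          have g4 := Int.lt_floor_add_one z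
          rw [abs_of_nonneg (by linarith : (0 : ℝ) ≤ z - ⌊z⌋)] at g1
          push_cast at g2
          rw [abs_of_nonpos (by linarith : z - (⌊z⌋ + 1) ≤ (0 : ℝ))] at g2
          constructor <;> linarith
        have a1 := hfr _ hx
        have a2 := hfr _ hx'
        refine fin _ _ ?_ h3.2
        apply int_eq_of_abs_lt
        push_cast
        rw [abs_lt]
        constructor <;> linarith [a1.1, a1.2, a2.1, a2.2, hδ2.1, hδ2.2]
  have hcc := (SimpleGraph.Coloring.mk col (fun {v w} h => hvalid v w h)).colorable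
  have hcard : Fintype.card (Bool × Fin C) = 2 * C := by simp
  rwa [hcard] at hcc

end

end Pool.Agent.Lib.MP_2bc700_co.Thick
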